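import Pool.Agent.H9.Burnside.Powers

/-!
Finitely generated groups: maximal normal subgroups, infinite simple sections, and subgroups of
unrestricted powers generated by the diagonal and one more element.
-/

namespace Pool.Agent.H9.Burnside

open scoped commutatorElement

universe u

theorem mem_of_finset_sSup {K : Type u} [Group K] (c : Set (Subgroup K)) (hne : c.Nonempty)
    (hc : IsChain (· ≤ ·) c) (T : Finset K) (hT : ∀ t ∈ T, t ∈ sSup c) :
    ∃ N ∈ c, ∀ t ∈ T, t ∈ N := by
  classical
  induction T using Finset.induction_on with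
  | empty =>
      obtain ⟨N, hN⟩ := hne
      exact ⟨N, hN, by simp⟩
  | insert a T ha ih =>
      obtain ⟨N, hN, hNT⟩ := ih fun t ht => hT t (Finset.mem_insert_of_mem ht)
      have ha' := hT a (Finset.mem_insert_self a T)
      rw [Subgroup.mem_sSup_of_directedOn hne hc.directedOn] at ha'
      obtain ⟨N', hN', haN'⟩ := ha'
      rcases hc.total hN hN' with h | h
      · refine ⟨N', hN', fun t ht => ?_⟩
        rw [Finset.mem_insert] at ht
        rcases ht with rfl | ht
        · exact haN'
        · exact h (hNT t ht)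
      · refine ⟨N, hN, fun t ht => ?_⟩
        rw [Finset.mem_insert] at ht
        rcases ht with rfl | ht
        · exact h haN'
        · exact hNT t ht

/-- A nontrivial finitely generated group has a maximal proper normal subgroup. -/
theorem exists_maximal_normal (K : Type u) [Group K] [Group.FG K] [Nontrivial K] :
    ∃ M : Subgroup K, M.Normal ∧ M ≠ ⊤ ∧ ∀ N : Subgroup K, N.Normal → M ≤ N → N = M ∨ N = ⊤ := by
  classical
  obtain ⟨T, hT⟩ := (Group.fg_def.mp (inferInstance : Group.FG K))
  let 𝒮 : Set (Subgroup K) := {N | N.Normal ∧ N ≠ ⊤}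
  have hbot : (⊥ : Subgroup K) ∈ 𝒮 := ⟨inferInstance, bot_ne_top⟩
  obtain ⟨M, hbM, hM⟩ := zorn_le_nonempty₀ 𝒮 (by
    intro c hc hchain y hy
    refine ⟨sSup c, ⟨?_, ?_⟩, fun z hz => le_sSup hz⟩
    · refine ⟨fun x hx g => ?_⟩
      rw [Subgroup.mem_sSup_of_directedOn ⟨y, hy⟩ hchain.directedOn] at hx ⊢
      obtain ⟨N, hN, hxN⟩ := hx
      exact ⟨N, hN, (hc hN).1.conj_mem x hxN g⟩
    · intro htop
      obtain ⟨N, hN, hTN⟩ := mem_of_finset_sSup c ⟨y, hy⟩ hchain T (fun t _ => by
        rw [htop]; trivial)
      apply (hc hN).2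
      rw [eq_top_iff, ← hT, Subgroup.closure_le]
      exact fun t ht => hTN t ht) ⊥ hbot
  refine ⟨M, hM.prop.1, hM.prop.2, fun N hN hMN => ?_⟩
  by_cases h : N = ⊤
  · exact Or.inr h
  · exact Or.inl (le_antisymm (hM.le_of_ge ⟨hN, h⟩ hMN) hMN)

theorem isSimpleGroup_quotient {K : Type u} [Group K] (M : Subgroup K) [M.Normal] (hM : M ≠ ⊤)
    (hmax : ∀ N : Subgroup K, N.Normal → M ≤ N → N = M ∨ N = ⊤) : IsSimpleGroup (K ⧸ M) := by
  have hnt : Nontrivial (K ⧸ M) := by
    by_contra hcon
    rw [not_nontrivial_iff_subsingleton] at hcon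
    exact hM (QuotientGroup.subgroup_eq_top_of_subsingleton M hcon)
  refine { toNontrivial := hnt, eq_bot_or_eq_top_of_normal := fun H hH => ?_ }
  have h1 : M ≤ H.comap (QuotientGroup.mk' M) := by
    intro x hx
    rw [Subgroup.mem_comap]
    have : QuotientGroup.mk' M x = 1 := (QuotientGroup.eq_one_iff x).mpr hx
    rw [this]
    exact H.one_mem
  have hsurj := QuotientGroup.mk'_surjective M
  rcases hmax _ (hH.comap _) h1 with h | h
  · left
    rw [eq_bot_iff]
    intro y hy
    obtain ⟨x, rfl⟩ := hsurj y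
    have hx : x ∈ H.comap (QuotientGroup.mk' M) := hy
    rw [h] at hx
    rw [Subgroup.mem_bot]
    exact (QuotientGroup.eq_one_iff x).mpr hx
  · right
    rw [eq_top_iff]
    intro y _
    obtain ⟨x, rfl⟩ := hsurj y
    have hx : x ∈ H.comap (QuotientGroup.mk' M) := by rw [h]; trivial
    exact hx

/-- An infinite finitely generated group whose normal subgroups of finite index have bounded
index has an infinite simple quotient of a subgroup of finite index. -/
theorem exists_simple_section (Γ : Type u) [Group Γ] [Group.FG Γ] [Infinite Γ]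
    (hb : ∃ k, ∀ N : Subgroup Γ, N.Normal → N.FiniteIndex → N.index ≤ k) :
    ∃ (K : Subgroup Γ) (M : Subgroup K) (_ : M.Normal), K.FiniteIndex ∧ Infinite (K ⧸ M) ∧
      IsSimpleGroup (K ⧸ M) := by
  classical
  obtain ⟨k, hk⟩ := hb
  let P : ℕ → Prop := fun i => ∃ N : Subgroup Γ, N.Normal ∧ N.FiniteIndex ∧ N.index = i
  have hP1 : P 1 := ⟨⊤, inferInstance, inferInstance, Subgroup.index_top⟩
  have hP1k : 1 ≤ k := by
    obtain ⟨N, h1, h2, h3⟩ := hP1
    rw [← h3]
    exact hk N h1 h2
  obtain ⟨K, hKn, hKf, hKi⟩ := Nat.findGreatest_spec hP1k hP1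
  have hmax : ∀ N : Subgroup Γ, N.Normal → N.FiniteIndex → K ≤ N := by
    intro N hN hNf
    have hnorm : (N ⊓ K).Normal := inferInstance
    have hfin : (N ⊓ K).FiniteIndex := inferInstance
    have h1 : (N ⊓ K).index ≤ K.index := by
      rw [hKi]
      exact Nat.le_findGreatest (hk _ hnorm hfin) ⟨_, hnorm, hfin, rfl⟩
    have h2 := Subgroup.relIndex_mul_index (inf_le_right : N ⊓ K ≤ K)
    have h3 : (N ⊓ K).relIndex K = 1 := by
      have h4 : (N ⊓ K).index ≠ 0 := hfin.index_ne_zero
      have h5 : K.index ≠ 0 := hKf.index_ne_zero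
      have h6 : (N ⊓ K).relIndex K ≠ 0 := by
        intro h
        rw [h, zero_mul] at h2
        exact h4 h2.symm
      have h7 : (N ⊓ K).relIndex K * K.index ≤ 1 * K.index := by
        rw [h2, one_mul]; exact h1
      have h8 := Nat.le_of_mul_le_mul_right h7 (Nat.pos_of_ne_zero h5)
      omega
    rw [Subgroup.relIndex_eq_one] at h3
    exact h3.trans inf_le_left
  have hsub : ∀ L : Subgroup K, L.FiniteIndex → L = ⊤ := by
    intro L hL
    have hidx : (L.map K.subtype).index ≠ 0 := by
      rw [Subgroup.index_map_subtype]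
      exact mul_ne_zero hL.index_ne_zero hKf.index_ne_zero
    haveI : (L.map K.subtype).FiniteIndex := ⟨hidx⟩
    have h1 : K ≤ (L.map K.subtype).normalCore := hmax _ inferInstance inferInstance
    rw [eq_top_iff]
    intro x _
    have h2 : (x : Γ) ∈ L.map K.subtype := Subgroup.normalCore_le _ (h1 x.2)
    obtain ⟨y, hy, hyx⟩ := h2
    have : y = x := Subtype.ext hyx
    rw [← this]
    exact hy
  have hKinf : Infinite K := by
    by_contra hcon
    rw [not_infinite_iff_finite] at hcon
    have h1 := Subgroup.card_mul_index K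
    rw [Nat.card_eq_zero_of_infinite (α := Γ)] at h1
    rcases Nat.mul_eq_zero.mp h1 with h | h
    · exact Nat.card_pos.ne' h
    · exact hKf.index_ne_zero h
  haveI : Group.FG K := by
    haveI := hKf
    exact Subgroup.fg_of_index_ne_zero K
  haveI : Nontrivial K := inferInstance
  obtain ⟨M, hMn, hMtop, hMmax⟩ := exists_maximal_normal K
  refine ⟨K, M, hMn, hKf, ?_, isSimpleGroup_quotient M hMtop hMmax⟩
  by_contra hcon
  rw [not_infinite_iff_finite] at hcon
  exact hMtop (hsub M (Subgroup.finiteIndex_of_finite_quotient))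

/-- An infinite simple group of finite exponent is not commutative. -/
theorem nonabelian_of_infinite {S : Type u} [Group S] [IsSimpleGroup S] [Infinite S] {n : ℕ}
    (hn : 0 < n) (hS : ∀ g : S, g ^ n = 1) : ∃ a b : S, a * b ≠ b * a := by
  by_contra hcon
  push Not at hcon
  obtain ⟨a, ha⟩ := exists_ne (1 : S)
  have hnorm : (Subgroup.zpowers a).Normal := by
    refine ⟨fun x hx g => ?_⟩
    rw [hcon g x, mul_inv_cancel_right]
    exact hx
  rcases hnorm.eq_bot_or_eq_top with h | h
  · rw [Subgroup.zpowers_eq_bot] at h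
    exact ha h
  · have hfin : IsOfFinOrder a := isOfFinOrder_iff_pow_eq_one.mpr ⟨n, hn, hS a⟩
    have h1 : Finite (Subgroup.zpowers a) := (finite_zpowers.mpr hfin).to_subtype
    rw [h] at h1
    have : Finite S := Finite.of_equiv _ (Subgroup.topEquiv (G := S)).toEquiv
    exact not_finite S

/-- The constant functions with values in a generating family, together with one function `x`. -/
def diagGen {S : Type u} {ι : Type} {d : ℕ} (s : Fin d → S) (x : ι → S) :
    Fin (d + 1) → (ι → S) :=
  Fin.cons x (fun i _ => s i)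

theorem x_mem {S : Type u} [Group S] {ι : Type} {d : ℕ} (s : Fin d → S) (x : ι → S) :
    x ∈ Subgroup.closure (Set.range (diagGen s x)) :=
  Subgroup.subset_closure ⟨0, rfl⟩

theorem diag_mem {S : Type u} [Group S] {ι : Type} {d : ℕ} (s : Fin d → S)
    (hs : Subgroup.closure (Set.range s) = ⊤) (x : ι → S) (t : S) :
    (fun _ => t) ∈ Subgroup.closure (Set.range (diagGen s x)) := by
  have ht : t ∈ Subgroup.closure (Set.range s) := by rw [hs]; trivial
  let δ : S →* (ι → S) := { toFun := fun t _ => t, map_one' := rfl, map_mul' := fun _ _ => rfl }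
  have h1 : (Subgroup.closure (Set.range s)).map δ ≤
      Subgroup.closure (Set.range (diagGen s x)) := by
    rw [MonoidHom.map_closure, Subgroup.closure_le]
    rintro _ ⟨_, ⟨i, rfl⟩, rfl⟩
    refine Subgroup.subset_closure ⟨i.succ, ?_⟩
    simp [diagGen, δ]
  exact h1 ⟨t, ht, rfl⟩

/-- Restriction of the coordinates along a map. -/
def restr (S : Type u) [Group S] {ι κ : Type} (e : κ → ι) : (ι → S) →* (κ → S) where
  toFun f := fun j => f (e j)
  map_one' := rfl
  map_mul' _ _ := rfl

/-- The group generated by the diagonal and an element with distinct coordinates projects onto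
every finite subproduct. -/
theorem map_restr_eq_top {S : Type u} [Group S] [IsSimpleGroup S]
    (hna : ∃ a b : S, a * b ≠ b * a) {d : ℕ} (s : Fin d → S)
    (hs : Subgroup.closure (Set.range s) = ⊤) {ι κ : Type} [Finite κ] (x : ι → S)
    (hx : Function.Injective x) (e : κ → ι) (he : Function.Injective e) :
    (Subgroup.closure (Set.range (diagGen s x))).map (restr S e) = ⊤ := by
  refine eq_top_of_diagonal hna _ (fun t => ?_) (restr S e x) ?_ (hx.comp he)
  · exact ⟨fun _ => t, diag_mem s hs x t, rfl⟩
  · exact ⟨x, x_mem s x, rfl⟩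

/-- If `S` is a nonabelian simple group generated by `d` elements and `ι` is finite and embeds in
`S`, then `S^ι` is generated by `d + 1` elements. -/
theorem closure_diagGen {S : Type u} [Group S] [IsSimpleGroup S]
    (hna : ∃ a b : S, a * b ≠ b * a) {d : ℕ} (s : Fin d → S)
    (hs : Subgroup.closure (Set.range s) = ⊤) {ι : Type} [Finite ι] (x : ι → S)
    (hx : Function.Injective x) :
    Subgroup.closure (Set.range (diagGen s x)) = ⊤ :=
  eq_top_of_diagonal hna _ (fun t => diag_mem s hs x t) x (x_mem s x) hx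

end Pool.Agent.H9.Burnside
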