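import Mathlib

/-!
Topological zero-one law for the shift of an infinite group, and its consequences for equivalence
relations with countable classes.
-/

open Filter Topology Set

namespace Pool.Agent.H9.Burnside

section

variable {H : Type} [Group H] {D : Type}

/-- The shift by a group element on the functions on the group. -/
def shift (x : H) (X : H → D) : H → D := fun h => X (x * h)

theorem shift_shift (x y : H) (X : H → D) : shift x (shift y X) = shift (y * x) X := by
  funext h
  simp [shift, mul_assoc]

theorem shift_one (X : H → D) : shift (1 : H) X = X := by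
  funext h
  simp [shift]

variable [TopologicalSpace D]

theorem continuous_shift (x : H) : Continuous (shift x : (H → D) → (H → D)) :=
  continuous_pi fun h => continuous_apply (x * h)

/-- The shift as a homeomorphism. -/
def shiftHomeo (x : H) : (H → D) ≃ₜ (H → D) where
  toFun := shift x
  invFun := shift x⁻¹
  left_inv X := by rw [shift_shift, mul_inv_cancel, shift_one]
  right_inv X := by rw [shift_shift, inv_mul_cancel, shift_one]
  continuous_toFun := continuous_shift x
  continuous_invFun := continuous_shift x⁻¹

/-- Two nonempty open sets are linked by a shift. -/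
theorem exists_shift_inter [Infinite H] [DiscreteTopology D] (u v : Set (H → D)) (hu : IsOpen u)
    (hv : IsOpen v) (hune : u.Nonempty) (hvne : v.Nonempty) :
    ∃ x : H, ((shift x) ⁻¹' u ∩ v).Nonempty := by
  classical
  obtain ⟨ξ, hξ⟩ := hune
  obtain ⟨η, hη⟩ := hvne
  obtain ⟨I, a, ha, haI⟩ := isOpen_pi_iff.mp hu ξ hξ
  obtain ⟨J, b, hb, hbJ⟩ := isOpen_pi_iff.mp hv η hη
  obtain ⟨x, hx⟩ := Infinite.exists_notMem_finset ((J ×ˢ I).image fun p => p.1 * p.2⁻¹)
  have hx' : ∀ i ∈ I, x * i ∉ J := by
    intro i hi hj
    apply hx
    rw [Finset.mem_image]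
    exact ⟨(x * i, i), Finset.mem_product.mpr ⟨hj, hi⟩, by simp⟩
  let Z : H → D := fun h => if h ∈ J then η h else ξ (x⁻¹ * h)
  refine ⟨x, Z, ?_, ?_⟩
  · apply haI
    intro i hi
    have : shift x Z i = ξ i := by
      simp only [shift, Z]
      rw [if_neg (hx' i hi)]
      simp
    rw [this]
    exact (ha i hi).2
  · apply hbJ
    intro j hj
    have : Z j = η j := by
      simp only [Z]
      rw [if_pos (Finset.mem_coe.mp hj)]
    rw [this]
    exact (hb j hj).2

/-- A nonempty open set of functions is linked to every other one, hence invariant sets with the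
property of Baire are meagre or comeagre. -/
theorem zero_one [Infinite H] [DiscreteTopology D] [BaireSpace (H → D)]
    [MeasurableSpace (H → D)] [BorelSpace (H → D)] (A : Set (H → D)) (hA : MeasurableSet A)
    (hinv : ∀ x : H, ∀ X, shift x X ∈ A ↔ X ∈ A) :
    A ∈ residual (H → D) ∨ Aᶜ ∈ residual (H → D) := by
  obtain ⟨u, hu, hAu⟩ := hA.residualEq_isOpen
  by_cases hune : u.Nonempty
  · left
    have hdense : Dense u := by
      rw [dense_iff_inter_open]
      intro v hv hvne
      by_contra hcon
      obtain ⟨x, hx⟩ := exists_shift_inter u v hu hv hune hvne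
      have h1 : ∀ᶠ X in residual (H → D), (shift x X ∈ A ↔ shift x X ∈ u) := by
        have h2 : Tendsto (shift x : (H → D) → (H → D)) (residual _) (residual _) :=
          tendsto_residual_of_isOpenMap (continuous_shift x) (shiftHomeo x).isOpenMap
        have h3 : ∀ᶠ X in residual (H → D), (X ∈ A ↔ X ∈ u) := by
          filter_upwards [hAu] with X hX
          exact iff_of_eq hX
        exact h2.eventually h3
      have h4 : ∀ᶠ X in residual (H → D), (X ∈ u ↔ shift x X ∈ u) := by
        filter_upwards [hAu, h1] with X hX hX1
        have h5 : X ∈ A ↔ X ∈ u := iff_of_eq hX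
        rw [← h5, ← hX1, hinv]
      have h6 : Dense {X : H → D | X ∈ u ↔ shift x X ∈ u} := dense_of_mem_residual h4
      rw [dense_iff_inter_open] at h6
      obtain ⟨X, hX1, hX2⟩ := h6 ((shift x) ⁻¹' u ∩ v)
        ((hu.preimage (continuous_shift x)).inter hv) hx
      exact hcon ⟨X, hX1.2, hX2.mpr hX1.1⟩
    have h7 : u ∈ residual (H → D) := residual_of_dense_open hu hdense
    filter_upwards [hAu, h7] with X hX hX1
    exact (iff_of_eq hX).mpr hX1
  · right
    rw [not_nonempty_iff_eq_empty] at hune
    filter_upwards [hAu] with X hX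
    intro hXA
    have h8 : X ∈ u := (iff_of_eq hX).mp hXA
    rw [hune] at h8
    exact h8

/-- A countable set of functions is meagre. -/
theorem countable_compl_residual [Infinite H] [DiscreteTopology D] [Nontrivial D]
    (C : Set (H → D)) (hC : C.Countable) : Cᶜ ∈ residual (H → D) := by
  classical
  have h1 : ∀ X : H → D, ({X} : Set (H → D))ᶜ ∈ residual (H → D) := by
    intro X
    refine residual_of_dense_open isOpen_compl_singleton ?_
    rw [dense_iff_inter_open]
    rintro v hv ⟨η, hη⟩
    obtain ⟨J, b, hb, hbJ⟩ := isOpen_pi_iff.mp hv η hη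
    obtain ⟨x, hx⟩ := Infinite.exists_notMem_finset J
    obtain ⟨c, hc⟩ := exists_ne (X x)
    refine ⟨Function.update η x c, ?_, ?_⟩
    · apply hbJ
      intro j hj
      rw [Function.update_of_ne (by rintro rfl; exact hx hj)]
      exact (hb j hj).2
    · rw [mem_compl_iff, mem_singleton_iff]
      intro h
      have := congrFun h x
      rw [Function.update_self] at this
      exact hc this
  have h2 : Cᶜ = ⋂ X ∈ C, ({X} : Set (H → D))ᶜ := by
    ext Y
    simp only [mem_compl_iff, mem_iInter, mem_singleton_iff]
    constructor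
    · intro hY X hX h
      exact hY (h ▸ hX)
    · intro h hY
      exact h Y hY rfl
  rw [h2, countable_bInter_mem hC]
  intro X _
  exact h1 X

end

/-- An equivalence relation with countable classes on an uncountable standard Borel space has
continuum many classes. -/
theorem exists_many_in {P : Type} [TopologicalSpace P] [PolishSpace P] [MeasurableSpace P]
    [BorelSpace P] (R : Set P) (hR : MeasurableSet R) (hRc : ¬ R.Countable)
    (r : P → P → Prop) (hr : Equivalence r) (hc : ∀ Y, {X | r X Y}.Countable) :
    ∃ f : Set ℕ → P, (∀ X, f X ∈ R) ∧ ∀ X Y, r (f X) (f Y) → X = Y := by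
  classical
  have hst : StandardBorelSpace R := hR.standardBorel
  have hunc : ¬ Countable R := by rwa [countable_coe_iff]
  obtain ⟨e⟩ : Nonempty (R ≃ᵐ (ℕ → Bool)) :=
    ⟨PolishSpace.measurableEquivNatBoolOfNotCountable hunc⟩
  -- the quotient of the set
  let S : Setoid R := ⟨fun X Y => r X Y, fun X => hr.refl _, fun h => hr.symm h,
    fun h h' => hr.trans h h'⟩
  have hcount : ∀ q : Quotient S, ∃ g : R → ℕ, Set.InjOn g {X | Quotient.mk S X = q} := by
    intro q
    rw [← Set.countable_iff_exists_injOn]
    induction q using Quotient.inductionOn with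
    | h Y =>
      have h1 : ((fun X : R => (X : P)) ⁻¹' {X | r X Y}).Countable :=
        (hc Y).preimage Subtype.val_injective
      refine h1.mono ?_
      intro X hX
      exact Quotient.exact hX
  choose g hg using hcount
  have hle : Cardinal.mk R ≤ Cardinal.mk (Quotient S) * Cardinal.aleph0 := by
    rw [← Cardinal.mk_nat, Cardinal.mul_def, Cardinal.le_def]
    refine ⟨⟨fun X => (Quotient.mk S X, g (Quotient.mk S X) X), ?_⟩⟩
    intro X Y hXY
    simp only [Prod.mk.injEq] at hXY
    obtain ⟨h1, h2⟩ := hXY
    rw [h1] at h2
    exact hg _ h1 rfl h2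
  have hcard : Cardinal.mk R = Cardinal.continuum := by
    rw [Cardinal.mk_congr e.toEquiv]
    simp
  have hQ : Cardinal.mk (Set ℕ) ≤ Cardinal.mk (Quotient S) := by
    by_contra hlt
    push Not at hlt
    rw [Cardinal.mk_set_nat] at hlt
    rw [hcard] at hle
    have := Cardinal.mul_lt_of_lt Cardinal.aleph0_le_continuum hlt Cardinal.aleph0_lt_continuum
    exact absurd hle (not_le.mpr this)
  obtain ⟨φ⟩ := hQ
  refine ⟨fun X => (φ X).out, fun X => (φ X).out.2, fun X Y h => ?_⟩
  apply φ.injective
  have h1 : Quotient.mk S (φ X).out = Quotient.mk S (φ Y).out := Quotient.sound h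
  rwa [Quotient.out_eq, Quotient.out_eq] at h1

end Pool.Agent.H9.Burnside
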