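import Pool.Agent.H9.Burnside.Marked

/-!
The generic behaviour of the groups of the family: one first order theory, constant measurable
invariants.
-/

open Filter Topology Set

noncomputable section

namespace Pool.Agent.H9.Burnside

/-- The relations satisfied by a tuple of elements of a group. -/
def relations {G : Type} [Group G] {m : ℕ} (s : Fin m → G) : FreeGroup (Fin m) → Prop :=
  fun w => FreeGroup.lift s w = 1

namespace HG

variable {k : ℕ} {H : Type} [Group H] {D : Type} [AddCommGroup D]

theorem lift_gens (π : MonoidAlgebra (ZMod k) H →+ D) {d : ℕ} (s : Fin d → H)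
    (w : FreeGroup (Fin (d + 2))) :
    FreeGroup.lift (gens π s) w =
      toHG π (FreeGroup.lift (gens (AddMonoidHom.id (MonoidAlgebra (ZMod k) H)) s) w) := by
  have h : FreeGroup.lift (gens π s) = (toHG π).comp
      (FreeGroup.lift (gens (AddMonoidHom.id (MonoidAlgebra (ZMod k) H)) s)) := by
    refine FreeGroup.ext_hom _ _ fun i => ?_
    rw [MonoidHom.comp_apply, FreeGroup.lift_apply_of, FreeGroup.lift_apply_of]
    refine Fin.cases ?_ (fun i => ?_) i
    · simp [gens, toHG]
    · refine Fin.cases ?_ (fun i => ?_) i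
      · simp [gens, toHG]
      · simp [gens, toHG]
  rw [h]
  rfl

theorem shift_mem_onto (x : H) (X : H → D) : shift x X ∈ Onto H D ↔ X ∈ Onto H D := by
  constructor
  · intro h c
    obtain ⟨y, hy⟩ := h c
    exact ⟨x * y, hy⟩
  · intro h c
    obtain ⟨y, hy⟩ := h c
    refine ⟨x⁻¹ * y, ?_⟩
    show X (x * (x⁻¹ * y)) = c
    rw [mul_inv_cancel_left, hy]

variable [TopologicalSpace D] [DiscreteTopology D]

theorem onto_residual [Infinite H] [Countable D] : Onto H D ∈ residual (H → D) := by
  classical
  have h1 : Onto H D = ⋂ c : D, ⋃ h : H, {X : H → D | X h = c} := by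
    ext X
    simp only [mem_iInter, mem_iUnion]
    exact Iff.rfl
  rw [h1, countable_iInter_mem]
  intro c
  refine residual_of_dense_open ?_ ?_
  · refine isOpen_iUnion fun h => ?_
    exact (isOpen_discrete ({c} : Set D)).preimage
      (continuous_apply h : Continuous fun X : H → D => X h)
  · rw [dense_iff_inter_open]
    rintro v hv ⟨η, hη⟩
    obtain ⟨J, b, hb, hbJ⟩ := isOpen_pi_iff.mp hv η hη
    obtain ⟨x, hx⟩ := Infinite.exists_notMem_finset J
    refine ⟨Function.update η x c, ?_, ?_⟩
    · apply hbJ
      intro j hj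
      rw [Function.update_of_ne (by rintro rfl; exact hx hj)]
      exact (hb j hj).2
    · rw [mem_iUnion]
      exact ⟨x, Function.update_self _ _ _⟩

theorem onto_measurable [Countable H] [Countable D] [MeasurableSpace (H → D)]
    [BorelSpace (H → D)] : MeasurableSet (Onto H D) := by
  have h1 : Onto H D = ⋂ c : D, ⋃ h : H, {X : H → D | X h = c} := by
    ext X
    simp only [mem_iInter, mem_iUnion]
    exact Iff.rfl
  rw [h1]
  refine MeasurableSet.iInter fun c => MeasurableSet.iUnion fun h => ?_
  exact ((isOpen_discrete ({c} : Set D)).preimage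
    (continuous_apply h : Continuous fun X : H → D => X h)).measurableSet

open Classical in
/-- The comeagre one of a set and its complement. -/
def big (A : Set (H → D)) : Set (H → D) := if A ∈ residual (H → D) then A else Aᶜ

theorem big_measurable [MeasurableSpace (H → D)] (A : Set (H → D)) (hA : MeasurableSet A) :
    MeasurableSet (big A) := by
  unfold big
  split_ifs
  · exact hA
  · exact hA.compl

theorem big_residual (A : Set (H → D)) (hA : A ∈ residual (H → D) ∨ Aᶜ ∈ residual (H → D)) :
    big A ∈ residual (H → D) := by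
  unfold big
  split_ifs with h
  · exact h
  · exact hA.resolve_left h

theorem big_iff (A : Set (H → D)) {X Y : H → D} (hX : X ∈ big A) (hY : Y ∈ big A) :
    X ∈ A ↔ Y ∈ A := by
  unfold big at hX hY
  split_ifs at hX hY with h
  · exact ⟨fun _ => hY, fun _ => hX⟩
  · exact ⟨fun h1 => absurd h1 hX, fun h1 => absurd h1 hY⟩

/-- **The generic family.** -/
theorem exists_generic_family [NeZero k] [Infinite H] [Finite D] [Nontrivial D]
    {d : ℕ} (s : Fin d → H) (hs : Subgroup.closure (Set.range s) = ⊤)
    (hD : ∀ x : D, k • x = 0)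
    (f : (FreeGroup (Fin (d + 2)) → Prop) → ℝ) (hf : Measurable f)
    (hinv : ∀ X Y : H → D, X ∈ Onto H D → Y ∈ Onto H D →
      Nonempty (HG k H D (piOf hD X) ≃* HG k H D (piOf hD Y)) →
      f (relations (gens (piOf (k := k) hD X) s)) = f (relations (gens (piOf (k := k) hD Y) s))) :
    ∃ F : Set ℕ → (H → D), (∀ X, F X ∈ Onto H D) ∧
      (∀ X Y, Nonempty (HG k H D (piOf hD (F X)) ≃* HG k H D (piOf hD (F Y))) → X = Y) ∧
      (∀ X Y, groupLanguage.ElementarilyEquivalent (HG k H D (piOf hD (F X)))
        (HG k H D (piOf hD (F Y)))) ∧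
      ∀ X Y, f (relations (gens (piOf (k := k) hD (F X)) s)) =
        f (relations (gens (piOf (k := k) hD (F Y)) s)) := by
  classical
  have hHc : Countable H := countable_of_generated s hs
  letI : MeasurableSpace D := borel D
  haveI : BorelSpace D := ⟨rfl⟩
  have : PolishSpace D := inferInstance
  have hmeas : ∀ φ : groupLanguage.Sentence, ∃ B : Set (H → D), MeasurableSet B ∧
      ∀ X ∈ Onto H D, (X ∈ B ↔ φ.Realize (HG k H D (piOf hD X))) := by
    intro φ
    obtain ⟨B, hB, h⟩ := measurable_formula (H := H) (D := D) (k := k) hD φ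
      (fun a => Empty.elim a) (fun i => Fin.elim0 i)
    refine ⟨B, hB, fun X hX => ?_⟩
    rw [h X hX]
    unfold FirstOrder.Language.Sentence.Realize FirstOrder.Language.Formula.Realize
    have h1 : (fun a => toHG (piOf (k := k) hD X) ((fun a => Empty.elim a) a)) =
        (default : Empty → HG k H D (piOf hD X)) := by
      funext a; exact Empty.elim a
    have h2 : (fun i => toHG (piOf (k := k) hD X) ((fun i => Fin.elim0 i) i)) =
        (default : Fin 0 → HG k H D (piOf hD X)) := by
      funext a; exact Fin.elim0 a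
    rw [h1, h2]
  choose B hB hBr using hmeas
  -- the sets attached to the sentences
  let A : groupLanguage.Sentence → Set (H → D) := fun φ => B φ ∩ Onto H D
  have hAm : ∀ φ, MeasurableSet (A φ) := fun φ => (hB φ).inter onto_measurable
  have hAi : ∀ φ, ∀ x : H, ∀ X, shift x X ∈ A φ ↔ X ∈ A φ := by
    intro φ x X
    by_cases hX : X ∈ Onto H D
    · have hX' : shift x X ∈ Onto H D := (shift_mem_onto x X).mpr hX
      have h1 := elementarilyEquivalent_of_mulEquiv (shiftEquiv (k := k) hD x X)
      rw [FirstOrder.Language.elementarilyEquivalent_iff] at h1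
      constructor
      · rintro ⟨h2, _⟩
        exact ⟨(hBr φ X hX).mpr ((h1 φ).mp ((hBr φ _ hX').mp h2)), hX⟩
      · rintro ⟨h2, _⟩
        exact ⟨(hBr φ _ hX').mpr ((h1 φ).mpr ((hBr φ X hX).mp h2)), hX'⟩
    · have hX' : shift x X ∉ Onto H D := fun h => hX ((shift_mem_onto x X).mp h)
      exact ⟨fun h => absurd h.2 hX', fun h => absurd h.2 hX⟩
  -- the sets attached to the rational numbers
  let g : (H → D) → ℝ := fun X => f (relations (gens (piOf (k := k) hD X) s))
  have hgm : Measurable g := by
    refine hf.comp (measurable_pi_iff.mpr fun w => ?_)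
    have h1 : MeasurableSet {X : H → D | relations (gens (piOf (k := k) hD X) s) w} := by
      have h2 : {X : H → D | relations (gens (piOf (k := k) hD X) s) w} =
          {X : H → D | toHG (piOf (k := k) hD X)
            (FreeGroup.lift (gens (AddMonoidHom.id (MonoidAlgebra (ZMod k) H)) s) w) =
              toHG (piOf (k := k) hD X) 1} := by
        ext X
        show FreeGroup.lift (gens (piOf (k := k) hD X) s) w = 1 ↔
          toHG (piOf (k := k) hD X)
            (FreeGroup.lift (gens (AddMonoidHom.id (MonoidAlgebra (ZMod k) H)) s) w) =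
              toHG (piOf (k := k) hD X) 1
        rw [map_one, lift_gens]
      rw [h2]
      exact measurable_eq hD _ _
    exact measurableSet_setOfPred.mp h1
  have hgi : ∀ x : H, ∀ X, X ∈ Onto H D → g (shift x X) = g X := by
    intro x X hX
    exact hinv _ _ ((shift_mem_onto x X).mpr hX) hX ⟨shiftEquiv (k := k) hD x X⟩
  let A' : ℚ → Set (H → D) := fun q => {X | g X < q} ∩ Onto H D
  have hA'm : ∀ q, MeasurableSet (A' q) := fun q =>
    (measurableSet_lt hgm measurable_const).inter onto_measurable
  have hA'i : ∀ q, ∀ x : H, ∀ X, shift x X ∈ A' q ↔ X ∈ A' q := by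
    intro q x X
    by_cases hX : X ∈ Onto H D
    · have hX' : shift x X ∈ Onto H D := (shift_mem_onto x X).mpr hX
      have h1 := hgi x X hX
      constructor
      · rintro ⟨h2, _⟩
        exact ⟨by show g X < q; rw [← h1]; exact h2, hX⟩
      · rintro ⟨h2, _⟩
        exact ⟨by show g (shift x X) < q; rw [h1]; exact h2, hX'⟩
    · have hX' : shift x X ∉ Onto H D := fun h => hX ((shift_mem_onto x X).mp h)
      exact ⟨fun h => absurd h.2 hX', fun h => absurd h.2 hX⟩
  -- the comeagre set
  let R : Set (H → D) := Onto H D ∩ ((⋂ φ, big (A φ)) ∩ ⋂ q, big (A' q))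
  have hRm : MeasurableSet R := onto_measurable.inter
    ((MeasurableSet.iInter fun φ => big_measurable _ (hAm φ)).inter
      (MeasurableSet.iInter fun q => big_measurable _ (hA'm q)))
  have hRr : R ∈ residual (H → D) := by
    refine inter_mem onto_residual (inter_mem ?_ ?_)
    · rw [countable_iInter_mem]
      exact fun φ => big_residual _ (zero_one _ (hAm φ) (hAi φ))
    · rw [countable_iInter_mem]
      exact fun q => big_residual _ (zero_one _ (hA'm q) (hA'i q))
  have hRc : ¬ R.Countable := by
    intro hc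
    have h1 := countable_compl_residual R hc
    have h2 : (∅ : Set (H → D)) ∈ residual (H → D) := by
      have := inter_mem hRr h1
      rwa [inter_compl_self] at this
    have h3 := dense_of_mem_residual h2
    have h4 := h3.nonempty
    exact not_nonempty_empty h4
  obtain ⟨F, hF1, hF2⟩ := exists_many_in R hRm hRc
    (fun X Y => Nonempty (HG k H D (piOf hD X) ≃* HG k H D (piOf hD Y)))
    ⟨fun X => ⟨MulEquiv.refl _⟩, fun ⟨g⟩ => ⟨g.symm⟩, fun ⟨g⟩ ⟨g'⟩ => ⟨g.trans g'⟩⟩
    (fun Y => countable_class_X s hs hD (HG k H D (piOf hD Y)))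
  refine ⟨F, fun X => (hF1 X).1, hF2, fun X Y => ?_, fun X Y => ?_⟩
  · rw [FirstOrder.Language.elementarilyEquivalent_iff]
    intro φ
    have h1 := big_iff (A φ) (mem_iInter.mp (hF1 X).2.1 φ) (mem_iInter.mp (hF1 Y).2.1 φ)
    have h2 : F X ∈ B φ ↔ F Y ∈ B φ := by
      constructor
      · intro h; exact (h1.mp ⟨h, (hF1 X).1⟩).1
      · intro h; exact (h1.mpr ⟨h, (hF1 Y).1⟩).1
    exact ((hBr φ _ (hF1 X).1).symm.trans h2).trans (hBr φ _ (hF1 Y).1)
  · have h1 : ∀ q : ℚ, g (F X) < q ↔ g (F Y) < q := by
      intro q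
      have h2 := big_iff (A' q) (mem_iInter.mp (hF1 X).2.2 q) (mem_iInter.mp (hF1 Y).2.2 q)
      constructor
      · intro h; exact (h2.mp ⟨h, (hF1 X).1⟩).1
      · intro h; exact (h2.mpr ⟨h, (hF1 Y).1⟩).1
    show g (F X) = g (F Y)
    rcases lt_trichotomy (g (F X)) (g (F Y)) with h | h | h
    · obtain ⟨q, hq1, hq2⟩ := exists_rat_btwn h
      exact absurd ((h1 q).mp hq1) (not_lt.mpr hq2.le)
    · exact h
    · obtain ⟨q, hq1, hq2⟩ := exists_rat_btwn h
      exact absurd ((h1 q).mpr hq1) (not_lt.mpr hq2.le)

end HG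

end Pool.Agent.H9.Burnside
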