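import Mathlib

/-!
P. Hall's matrix construction over the group ring of an infinite group: finitely generated groups
with prescribed countable centre.
-/

noncomputable section

namespace Pool.Agent.H9.Burnside

universe u v

/-- Triangular matrices over the group ring of `H` with coefficients in `ZMod k`, the upper right
corner being taken through an additive map `π` to an abelian group `D`. -/
@[ext]
structure HG (k : ℕ) (H : Type u) [Group H] (D : Type u) [AddCommGroup D]
    (π : MonoidAlgebra (ZMod k) H →+ D) : Type u where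
  a : MonoidAlgebra (ZMod k) H
  b : MonoidAlgebra (ZMod k) H
  c : D
  h : H

namespace HG

variable {k : ℕ} {H : Type u} [Group H] {D : Type u} [AddCommGroup D]
  {π : MonoidAlgebra (ZMod k) H →+ D}

/-- The group elements as elements of the group ring. -/
def U (k : ℕ) (H : Type u) [Group H] : H →* MonoidAlgebra (ZMod k) H :=
  MonoidAlgebra.of (ZMod k) H

theorem U_apply (h : H) : U k H h = MonoidAlgebra.single h 1 := rfl

instance : Mul (HG k H D π) :=
  ⟨fun x y => ⟨y.a + x.a * U k H y.h, x.b + U k H x.h * y.b, x.c + y.c + π (x.a * y.b), x.h * y.h⟩⟩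

instance : One (HG k H D π) := ⟨⟨0, 0, 0, 1⟩⟩

instance : Inv (HG k H D π) :=
  ⟨fun x => ⟨-(x.a * U k H x.h⁻¹), -(U k H x.h⁻¹ * x.b), -x.c + π (x.a * (U k H x.h⁻¹ * x.b)), x.h⁻¹⟩⟩

theorem mul_def (x y : HG k H D π) : x * y =
    ⟨y.a + x.a * U k H y.h, x.b + U k H x.h * y.b, x.c + y.c + π (x.a * y.b), x.h * y.h⟩ := rfl

theorem one_def : (1 : HG k H D π) = ⟨0, 0, 0, 1⟩ := rfl

theorem inv_def (x : HG k H D π) : x⁻¹ =
    ⟨-(x.a * U k H x.h⁻¹), -(U k H x.h⁻¹ * x.b), -x.c + π (x.a * (U k H x.h⁻¹ * x.b)), x.h⁻¹⟩ := rfl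

instance : Group (HG k H D π) :=
  Group.ofLeftAxioms
    (by
      intro x y z
      simp only [mul_def]
      ext1
      · simp only [map_mul, mul_assoc, add_mul, mul_add]
        abel
      · simp only [map_mul, mul_assoc, add_mul, mul_add]
        abel
      · simp only [map_mul, mul_assoc, add_mul, mul_add, map_add]
        abel
      · exact mul_assoc _ _ _)
    (by
      intro x
      rw [mul_def, one_def]
      ext1 <;> simp)
    (by
      intro x
      rw [mul_def, one_def, inv_def]
      ext1
      · simp only [neg_mul, mul_assoc]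
        rw [← map_mul]
        simp
      · simp
      · simp only [neg_mul, map_neg, mul_assoc]
        abel
      · simp)

@[simp] theorem mul_a (x y : HG k H D π) : (x * y).a = y.a + x.a * U k H y.h := rfl
@[simp] theorem mul_b (x y : HG k H D π) : (x * y).b = x.b + U k H x.h * y.b := rfl
@[simp] theorem mul_c (x y : HG k H D π) : (x * y).c = x.c + y.c + π (x.a * y.b) := rfl
@[simp] theorem mul_h (x y : HG k H D π) : (x * y).h = x.h * y.h := rfl
@[simp] theorem one_a : (1 : HG k H D π).a = 0 := rfl
@[simp] theorem one_b : (1 : HG k H D π).b = 0 := rfl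
@[simp] theorem one_c : (1 : HG k H D π).c = 0 := rfl
@[simp] theorem one_h : (1 : HG k H D π).h = 1 := rfl

/-- The projection to `H`. -/
def toH (π : MonoidAlgebra (ZMod k) H →+ D) : HG k H D π →* H where
  toFun x := x.h
  map_one' := rfl
  map_mul' _ _ := rfl

/-! ### The exponent -/

theorem pow_unipotent (a b : MonoidAlgebra (ZMod k) H) (c : D) (j : ℕ) :
    (⟨a, b, c, 1⟩ : HG k H D π) ^ j = ⟨j • a, j • b, j • c + (j.choose 2) • π (a * b), 1⟩ := by
  induction j with
  | zero => simp [one_def]
  | succ j ih =>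
      rw [pow_succ, ih, mul_def]
      ext1
      · simp only [map_one, mul_one, add_smul, one_smul]
        abel
      · simp only [map_one, one_mul, add_smul, one_smul]
      · have h1 : (j + 1).choose 2 = j.choose 2 + j := by
          rw [Nat.choose_succ_succ' j 1]; simp [add_comm]
        simp only [add_smul, one_smul, h1, smul_mul_assoc, map_nsmul]
        abel
      · simp

/-- `k` if `k` is odd and `2 k` if `k` is even. -/
def kstar (k : ℕ) : ℕ := if Odd k then k else 2 * k

theorem dvd_kstar (k : ℕ) : k ∣ kstar k := by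
  unfold kstar
  split_ifs
  · exact dvd_rfl
  · exact Dvd.intro_left 2 rfl

theorem dvd_choose_kstar (k : ℕ) : k ∣ (kstar k).choose 2 := by
  unfold kstar
  split_ifs with h
  · obtain ⟨r, rfl⟩ := h
    rw [Nat.choose_two_right]
    have : (2 * r + 1) * (2 * r + 1 - 1) / 2 = (2 * r + 1) * r := by
      have : (2 * r + 1) * (2 * r + 1 - 1) = 2 * ((2 * r + 1) * r) := by
        simp only [Nat.add_sub_cancel]; ring
      rw [this]; simp
    rw [this]
    exact Dvd.intro _ rfl
  · rw [Nat.choose_two_right]
    have : 2 * k * (2 * k - 1) / 2 = k * (2 * k - 1) := by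
      rw [mul_assoc]; simp
    rw [this]
    exact Dvd.intro _ rfl

theorem smul_algebra_eq_zero (j : ℕ) (hj : k ∣ j) (a : MonoidAlgebra (ZMod k) H) : j • a = 0 := by
  obtain ⟨r, rfl⟩ := hj
  rw [← Nat.cast_smul_eq_nsmul (ZMod k)]
  simp

theorem pow_eq_one (n : ℕ) (hH : ∀ h : H, h ^ n = 1) (hD : ∀ x : D, k • x = 0)
    (x : HG k H D π) : x ^ (kstar k * n) = 1 := by
  have h1 : ∃ a b c, x ^ n = (⟨a, b, c, 1⟩ : HG k H D π) := by
    refine ⟨(x ^ n).a, (x ^ n).b, (x ^ n).c, ?_⟩
    have : (x ^ n).h = 1 := by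
      have h2 : toH π (x ^ n) = (toH π x) ^ n := map_pow _ _ _
      have h3 : toH π (x ^ n) = (x ^ n).h := rfl
      rw [← h3, h2]
      exact hH _
    ext1 <;> first | rfl | exact this
  obtain ⟨a, b, c, habc⟩ := h1
  have hDj : ∀ j, k ∣ j → ∀ x : D, j • x = 0 := by
    rintro j ⟨r, rfl⟩ x
    rw [mul_comm, mul_smul, hD, smul_zero]
  rw [mul_comm, pow_mul, habc, pow_unipotent, smul_algebra_eq_zero _ (dvd_kstar k),
    smul_algebra_eq_zero _ (dvd_kstar k), hDj _ (dvd_kstar k), hDj _ (dvd_choose_kstar k)]
  simp [one_def]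

/-! ### The centre -/

theorem eq_zero_of_mul_right [Infinite H] (a : MonoidAlgebra (ZMod k) H)
    (ha : ∀ t : H, a * U k H t = a) : a = 0 := by
  classical
  have h1 : ∀ g t : H, a.coeff (g * t⁻¹) = a.coeff g := by
    intro g t
    have h2 := congrArg (fun x => x.coeff g) (ha t)
    simp only [U_apply, MonoidAlgebra.coeff_mul_single_apply, mul_one] at h2
    exact h2
  ext g
  by_contra hne
  have hsub : (Set.univ : Set H) ⊆ a.coeff.support := by
    intro t _
    rw [Finset.mem_coe, Finsupp.mem_support_iff]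
    have h3 := h1 g (t⁻¹ * g)
    simp only [mul_inv_rev, inv_inv, mul_inv_cancel_left] at h3
    rw [h3]
    simpa using hne
  exact Set.infinite_univ (a.coeff.support.finite_toSet.subset hsub)

theorem eq_zero_of_mul_left [Infinite H] (b : MonoidAlgebra (ZMod k) H)
    (hb : ∀ t : H, U k H t * b = b) : b = 0 := by
  classical
  have h1 : ∀ g t : H, b.coeff (t⁻¹ * g) = b.coeff g := by
    intro g t
    have h2 := congrArg (fun x => x.coeff g) (hb t)
    simp only [U_apply, MonoidAlgebra.coeff_single_mul_apply, one_mul] at h2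
    exact h2
  ext g
  by_contra hne
  have hsub : (Set.univ : Set H) ⊆ b.coeff.support := by
    intro t _
    rw [Finset.mem_coe, Finsupp.mem_support_iff]
    have h3 := h1 g (g * t⁻¹)
    simp only [mul_inv_rev, inv_inv, inv_mul_cancel_right] at h3
    rw [h3]
    simpa using hne
  exact Set.infinite_univ (b.coeff.support.finite_toSet.subset hsub)

/-- The elements of the upper right corner. -/
def corner (π : MonoidAlgebra (ZMod k) H →+ D) : Multiplicative D →* HG k H D π where
  toFun c := ⟨0, 0, c.toAdd, 1⟩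
  map_one' := rfl
  map_mul' x y := by
    rw [mul_def]
    ext1 <;> simp

theorem corner_injective : Function.Injective (corner π) := by
  intro x y h
  have := congrArg HG.c h
  exact this

theorem mem_center_iff [Infinite H] (hk : 2 ≤ k) (x : HG k H D π) :
    x ∈ Subgroup.center (HG k H D π) ↔ x.a = 0 ∧ x.b = 0 ∧ x.h = 1 := by
  constructor
  · intro hx
    rw [Subgroup.mem_center_iff] at hx
    have ha : x.a = 0 := by
      refine eq_zero_of_mul_right _ fun t => ?_
      have := congrArg HG.a (hx ⟨0, 0, 0, t⟩)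
      simpa using this.symm
    have hb : x.b = 0 := by
      refine eq_zero_of_mul_left _ fun t => ?_
      have := congrArg HG.b (hx ⟨0, 0, 0, t⟩)
      simpa using this
    refine ⟨ha, hb, ?_⟩
    have h1 := congrArg HG.a (hx ⟨1, 0, 0, 1⟩)
    simp only [mul_a, ha, zero_add, zero_mul, add_zero, one_mul] at h1
    have h2 := congrArg (fun y => y.coeff x.h) h1
    have : Fact (1 < k) := ⟨hk⟩
    by_contra hne
    rw [U_apply, MonoidAlgebra.one_def] at h2
    simp [Finsupp.single_apply, Ne.symm hne] at h2
  · rintro ⟨ha, hb, hh⟩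
    rw [Subgroup.mem_center_iff]
    intro y
    rw [mul_def, mul_def]
    ext1 <;> simp [ha, hb, hh, add_comm]

/-- The centre is the upper right corner. -/
theorem center_equiv [Infinite H] (hk : 2 ≤ k) :
    Nonempty (Subgroup.center (HG k H D π) ≃* Multiplicative D) := by
  have h1 : (corner π).range = Subgroup.center (HG k H D π) := by
    ext x
    rw [mem_center_iff hk]
    constructor
    · rintro ⟨c, rfl⟩
      exact ⟨rfl, rfl, rfl⟩
    · rintro ⟨ha, hb, hh⟩
      refine ⟨Multiplicative.ofAdd x.c, ?_⟩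
      ext1
      · exact ha.symm
      · exact hb.symm
      · rfl
      · exact hh.symm
  rw [← h1]
  exact ⟨(MonoidHom.ofInjective corner_injective).symm⟩

/-! ### Generators -/

/-- The generators. -/
def gens (π : MonoidAlgebra (ZMod k) H →+ D) {d : ℕ} (s : Fin d → H) : Fin (d + 2) → HG k H D π :=
  Fin.cons ⟨1, 0, 0, 1⟩ (Fin.cons ⟨0, 1, 0, 1⟩ fun i => ⟨0, 0, 0, s i⟩)

/-- The diagonal elements. -/
def diag (π : MonoidAlgebra (ZMod k) H →+ D) : H →* HG k H D π where
  toFun h := ⟨0, 0, 0, h⟩
  map_one' := rfl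
  map_mul' x y := by
    rw [mul_def]
    ext1 <;> simp

theorem addSubgroup_eq_top [NeZero k] (T : AddSubgroup (MonoidAlgebra (ZMod k) H))
    (hT : ∀ h : H, U k H h ∈ T) : T = ⊤ := by
  rw [eq_top_iff]
  intro a _
  induction a using MonoidAlgebra.induction_linear with
  | zero => exact T.zero_mem
  | add x y hx hy => exact T.add_mem (hx trivial) (hy trivial)
  | single h r =>
      have h1 : MonoidAlgebra.single h r = r.val • U k H h := by
        rw [U_apply, MonoidAlgebra.smul_single]
        congr 1
        simp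
      rw [h1]
      exact T.nsmul_mem (hT h) _

theorem closure_gens [NeZero k] (hπ : Function.Surjective π) {d : ℕ} (s : Fin d → H)
    (hs : Subgroup.closure (Set.range s) = ⊤) :
    Subgroup.closure (Set.range (gens π s)) = ⊤ := by
  set P := Subgroup.closure (Set.range (gens π s)) with hP
  have hX : (⟨1, 0, 0, 1⟩ : HG k H D π) ∈ P := Subgroup.subset_closure ⟨0, rfl⟩
  have hY : (⟨0, 1, 0, 1⟩ : HG k H D π) ∈ P := Subgroup.subset_closure ⟨1, rfl⟩
  have hdiag : ∀ h : H, (⟨0, 0, 0, h⟩ : HG k H D π) ∈ P := by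
    intro h
    have hh : h ∈ Subgroup.closure (Set.range s) := by rw [hs]; trivial
    have h1 : (Subgroup.closure (Set.range s)).map (diag π) ≤ P := by
      rw [MonoidHom.map_closure, Subgroup.closure_le]
      rintro _ ⟨_, ⟨i, rfl⟩, rfl⟩
      exact Subgroup.subset_closure ⟨i.succ.succ, rfl⟩
    exact h1 ⟨h, hh, rfl⟩
  have ha : ∀ a : MonoidAlgebra (ZMod k) H, (⟨a, 0, 0, 1⟩ : HG k H D π) ∈ P := by
    let T : AddSubgroup (MonoidAlgebra (ZMod k) H) :=
      { carrier := {a | (⟨a, 0, 0, 1⟩ : HG k H D π) ∈ P}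
        zero_mem' := P.one_mem
        add_mem' := by
          intro x y hx hy
          have := P.mul_mem hy hx
          rw [mul_def] at this
          simpa using this
        neg_mem' := by
          intro x hx
          have := P.inv_mem hx
          rw [inv_def] at this
          simpa using this }
    have hT : T = ⊤ := addSubgroup_eq_top T fun h => by
      have h1 := P.mul_mem (P.mul_mem (hdiag h⁻¹) hX) (hdiag h)
      rw [mul_def, mul_def] at h1
      show (⟨U k H h, 0, 0, 1⟩ : HG k H D π) ∈ P
      simpa using h1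
    intro a
    have h1 : a ∈ T := by rw [hT]; trivial
    exact h1
  have hb : ∀ b : MonoidAlgebra (ZMod k) H, (⟨0, b, 0, 1⟩ : HG k H D π) ∈ P := by
    let T : AddSubgroup (MonoidAlgebra (ZMod k) H) :=
      { carrier := {b | (⟨0, b, 0, 1⟩ : HG k H D π) ∈ P}
        zero_mem' := P.one_mem
        add_mem' := by
          intro x y hx hy
          have := P.mul_mem hx hy
          rw [mul_def] at this
          simpa using this
        neg_mem' := by
          intro x hx
          have := P.inv_mem hx
          rw [inv_def] at this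
          simpa using this }
    have hT : T = ⊤ := addSubgroup_eq_top T fun h => by
      have h1 := P.mul_mem (P.mul_mem (hdiag h) hY) (hdiag h⁻¹)
      rw [mul_def, mul_def] at h1
      show (⟨0, U k H h, 0, 1⟩ : HG k H D π) ∈ P
      simpa using h1
    intro b
    have h1 : b ∈ T := by rw [hT]; trivial
    exact h1
  have hc : ∀ c : D, (⟨0, 0, c, 1⟩ : HG k H D π) ∈ P := by
    intro c
    obtain ⟨a, rfl⟩ := hπ c
    have h1 := P.mul_mem (P.mul_mem (ha a) hY) (P.inv_mem (P.mul_mem hY (ha a)))
    have h2 : (⟨a, 0, 0, 1⟩ : HG k H D π) * ⟨0, 1, 0, 1⟩ =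
        ⟨0, 0, π a, 1⟩ * (⟨0, 1, 0, 1⟩ * ⟨a, 0, 0, 1⟩) := by
      simp only [mul_def]
      ext1 <;> simp
    rw [h2, mul_inv_cancel_right] at h1
    exact h1
  rw [eq_top_iff]
  rintro ⟨a, b, c, h⟩ _
  have h1 := P.mul_mem (P.mul_mem (P.mul_mem (hb b) (hc c)) (hdiag h)) (ha a)
  simp only [mul_def] at h1
  simpa using h1

/-! ### Counting -/

/-- The map induced by `π` in the upper right corner. -/
def toHG (π : MonoidAlgebra (ZMod k) H →+ D) :
    HG k H (MonoidAlgebra (ZMod k) H) (AddMonoidHom.id _) →* HG k H D π where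
  toFun x := ⟨x.a, x.b, π x.c, x.h⟩
  map_one' := by
    rw [one_def, one_def]
    ext1 <;> simp
  map_mul' x y := by
    rw [mul_def, mul_def]
    ext1 <;> simp

theorem countable_of_generated {G : Type u} [Group G] {d : ℕ} (s : Fin d → G)
    (hs : Subgroup.closure (Set.range s) = ⊤) : Countable G := by
  have h1 : Function.Surjective (FreeGroup.lift s) := by
    rw [← MonoidHom.range_eq_top, FreeGroup.range_lift_eq_closure, hs]
  have h2 : Function.Surjective (FreeGroup.mk : List (Fin d × Bool) → FreeGroup (Fin d)) :=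
    Quot.mk_surjective
  exact (h1.comp h2).countable

theorem countable_hom {G Q : Type u} [Group G] [Group Q] [Countable Q] {d : ℕ} (s : Fin d → G)
    (hs : Subgroup.closure (Set.range s) = ⊤) : Countable (G →* Q) := by
  have h1 : Function.Injective (fun (f : G →* Q) (i : Fin d) => f (s i)) := by
    intro f g hfg
    refine MonoidHom.eq_of_eqOn_dense hs ?_
    rintro _ ⟨i, rfl⟩
    exact congrFun hfg i
  exact h1.countable

instance [NeZero k] [Countable H] [Countable D] : Countable (HG k H D π) := by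
  have : Countable (MonoidAlgebra (ZMod k) H) :=
    Countable.of_equiv _ (MonoidAlgebra.coeffEquiv (R := ZMod k) (M := H)).symm
  have h1 : Function.Injective (fun x : HG k H D π => (x.a, x.b, x.c, x.h)) := by
    intro x y hxy
    simp only [Prod.mk.injEq] at hxy
    ext1
    · exact hxy.1
    · exact hxy.2.1
    · exact hxy.2.2.1
    · exact hxy.2.2.2
  exact h1.countable

/-! ### A continuum of maps onto a given group -/

open Classical in
/-- The values of the map attached to a set of natural numbers. -/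
def val (D : Type u) [AddCommGroup D] (e : H ≃ ℕ ⊕ ℕ) (σ : ℕ → D) (e0 : D) (X : Set ℕ) (h : H) :
    D :=
  Sum.elim σ (fun i => if i ∈ X then e0 else 0) (e h)

/-- The multiples of an element of `D` as a map from `ZMod k`. -/
def mulMap (hD : ∀ x : D, k • x = 0) (x : D) : ZMod k →+ D :=
  ZMod.lift k ⟨zmultiplesHom D x, by simp [hD]⟩

theorem mulMap_one (hD : ∀ x : D, k • x = 0) (x : D) : mulMap hD x 1 = x := by
  have h1 : mulMap hD x ((1 : ℤ) : ZMod k) = zmultiplesHom D x 1 := ZMod.lift_coe _ _ _
  simpa using h1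

/-- The additive map attached to a function. -/
def piOf (hD : ∀ x : D, k • x = 0) (f : H → D) : MonoidAlgebra (ZMod k) H →+ D where
  toFun a := Finsupp.liftAddHom (fun h => mulMap hD (f h)) a.coeff
  map_zero' := by simp
  map_add' x y := by rw [MonoidAlgebra.coeff_add, map_add]

theorem piOf_U (hD : ∀ x : D, k • x = 0) (f : H → D) (h : H) : piOf hD f (U k H h) = f h := by
  show Finsupp.liftAddHom (fun h => mulMap hD (f h)) (U k H h).coeff = f h
  rw [U_apply, MonoidAlgebra.coeff_single, Finsupp.liftAddHom_apply_single, mulMap_one]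

/-- The maps attached to the sets of natural numbers. -/
def piX (hD : ∀ x : D, k • x = 0) (e : H ≃ ℕ ⊕ ℕ) (σ : ℕ → D) (e0 : D) (X : Set ℕ) :
    MonoidAlgebra (ZMod k) H →+ D :=
  piOf hD (val D e σ e0 X)

theorem piX_surjective (hD : ∀ x : D, k • x = 0) (e : H ≃ ℕ ⊕ ℕ) (σ : ℕ → D)
    (hσ : Function.Surjective σ) (e0 : D) (X : Set ℕ) :
    Function.Surjective (piX (k := k) hD e σ e0 X) := by
  intro x
  obtain ⟨i, rfl⟩ := hσ x
  refine ⟨U k H (e.symm (Sum.inl i)), ?_⟩
  simp [piX, piOf_U, val]

theorem piX_eq_zero_iff (hD : ∀ x : D, k • x = 0) (e : H ≃ ℕ ⊕ ℕ) (σ : ℕ → D) (e0 : D)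
    (he0 : e0 ≠ 0) (X : Set ℕ) (i : ℕ) :
    piX (k := k) hD e σ e0 X (U k H (e.symm (Sum.inr i))) = 0 ↔ i ∉ X := by
  simp only [piX, piOf_U, val, Equiv.apply_symm_apply, Sum.elim_inr]
  split_ifs with h
  · simp [he0, h]
  · simp [h]

/-- Only countably many of the groups attached to the sets of natural numbers are isomorphic to a
given one. -/
theorem countable_class [NeZero k] [Countable D] {d : ℕ} (s : Fin d → H)
    (hs : Subgroup.closure (Set.range s) = ⊤)
    (hD : ∀ x : D, k • x = 0) (e : H ≃ ℕ ⊕ ℕ) (σ : ℕ → D) (e0 : D) (he0 : e0 ≠ 0)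
    (Y : Set ℕ) :
    {X : Set ℕ | Nonempty (HG k H D (piX hD e σ e0 X) ≃* HG k H D (piX hD e σ e0 Y))}.Countable := by
  classical
  have hHc : Countable H := countable_of_generated s hs
  let G := HG k H (MonoidAlgebra (ZMod k) H) (AddMonoidHom.id _)
  have hG := closure_gens (π := AddMonoidHom.id (MonoidAlgebra (ZMod k) H))
    Function.surjective_id s hs
  have : Countable (G →* HG k H D (piX hD e σ e0 Y)) := countable_hom _ hG
  rw [← Set.countable_coe_iff]
  let F : {X : Set ℕ | Nonempty (HG k H D (piX hD e σ e0 X) ≃* HG k H D (piX hD e σ e0 Y))} →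
      (G →* HG k H D (piX hD e σ e0 Y)) := fun X =>
    (Classical.choice X.2).toMonoidHom.comp (toHG (piX hD e σ e0 X))
  have hF : ∀ X i, F X ⟨0, 0, U k H (e.symm (Sum.inr i)), 1⟩ = 1 ↔ i ∉ (X : Set ℕ) := by
    intro X i
    rw [← piX_eq_zero_iff (k := k) hD e σ e0 he0 X i]
    show (Classical.choice X.2) (toHG (piX hD e σ e0 X) _) = 1 ↔ _
    rw [map_eq_one_iff _ (Classical.choice X.2).injective]
    constructor
    · intro h
      exact congrArg HG.c h
    · intro h
      rw [one_def]
      ext1
      · rfl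
      · rfl
      · exact h
      · rfl
  have hinj : Function.Injective F := by
    intro X X' h
    apply Subtype.ext
    ext i
    have h1 := hF X i
    rw [h, hF X' i] at h1
    exact (not_iff_not.mp h1).symm
  exact hinj.countable

end HG

/-- An equivalence relation with countable classes on the sets of natural numbers has continuum
many classes. -/
theorem exists_many_inequivalent (r : Set ℕ → Set ℕ → Prop) (hr : Equivalence r)
    (hc : ∀ Y, {X | r X Y}.Countable) :
    ∃ f : Set ℕ → Set ℕ, ∀ X Y, r (f X) (f Y) → X = Y := by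
  classical
  let R : Setoid (Set ℕ) := ⟨r, hr⟩
  let Q := Quotient R
  have hcount : ∀ q : Q, ∃ g : Set ℕ → ℕ, Set.InjOn g {X | Quotient.mk R X = q} := by
    intro q
    rw [← Set.countable_iff_exists_injOn]
    induction q using Quotient.inductionOn with
    | h Y =>
      refine (hc Y).mono ?_
      intro X hX
      exact Quotient.exact hX
  choose g hg using hcount
  have hle : Cardinal.mk (Set ℕ) ≤ Cardinal.mk Q * Cardinal.aleph0 := by
    rw [← Cardinal.mk_nat, Cardinal.mul_def, Cardinal.le_def]
    refine ⟨⟨fun X => (Quotient.mk R X, g (Quotient.mk R X) X), ?_⟩⟩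
    intro X Y hXY
    simp only [Prod.mk.injEq] at hXY
    obtain ⟨h1, h2⟩ := hXY
    rw [h1] at h2
    exact hg _ h1 rfl h2
  have hQ : Cardinal.mk (Set ℕ) ≤ Cardinal.mk Q := by
    by_contra hlt
    push Not at hlt
    rw [Cardinal.mk_set_nat] at hlt hle
    have := Cardinal.mul_lt_of_lt Cardinal.aleph0_le_continuum hlt Cardinal.aleph0_lt_continuum
    exact absurd hle (not_le.mpr this)
  obtain ⟨φ⟩ := hQ
  refine ⟨fun X => (φ X).out, fun X Y h => ?_⟩
  apply φ.injective
  have h1 : Quotient.mk R (φ X).out = Quotient.mk R (φ Y).out := Quotient.sound h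
  rwa [Quotient.out_eq, Quotient.out_eq] at h1

end Pool.Agent.H9.Burnside
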