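import Pool.Agent.H9.Burnside.Basic

/-!
Just infinite quotients, infinite conjugacy classes and double cosets.
-/

namespace Pool.Agent.H9.Burnside

open scoped Pointwise

universe u

/-- An infinite finitely generated group has a normal subgroup which is maximal among the normal
subgroups with infinite quotient. -/
theorem exists_just_infinite (Γ : Type u) [Group Γ] [Group.FG Γ] [Infinite Γ] :
    ∃ N : Subgroup Γ, N.Normal ∧ Infinite (Γ ⧸ N) ∧
      ∀ M : Subgroup Γ, M.Normal → N ≤ M → M = N ∨ M.FiniteIndex := by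
  classical
  let 𝒮 : Set (Subgroup Γ) := {N | N.Normal ∧ ¬ N.FiniteIndex}
  have hbot : (⊥ : Subgroup Γ) ∈ 𝒮 := by
    refine ⟨inferInstance, fun h => ?_⟩
    have h1 := h.index_ne_zero
    rw [Subgroup.index_bot, Nat.card_eq_zero_of_infinite] at h1
    exact h1 rfl
  obtain ⟨N, hbN, hN⟩ := zorn_le_nonempty₀ 𝒮 (by
    intro c hc hchain y hy
    refine ⟨sSup c, ⟨?_, ?_⟩, fun z hz => le_sSup hz⟩
    · refine ⟨fun x hx g => ?_⟩
      rw [Subgroup.mem_sSup_of_directedOn ⟨y, hy⟩ hchain.directedOn] at hx ⊢
      obtain ⟨N, hN, hxN⟩ := hx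
      exact ⟨N, hN, (hc hN).1.conj_mem x hxN g⟩
    · intro hfin
      have hfg : Group.FG (sSup c : Subgroup Γ) := Subgroup.fg_of_index_ne_zero _
      rw [Group.fg_iff_subgroup_fg] at hfg
      obtain ⟨T, hT⟩ := hfg
      obtain ⟨N, hN, hTN⟩ := mem_of_finset_sSup c ⟨y, hy⟩ hchain T (fun t ht => by
        rw [← hT]; exact Subgroup.subset_closure ht)
      apply (hc hN).2
      have h1 : sSup c ≤ N := by
        rw [← hT, Subgroup.closure_le]
        exact fun t ht => hTN t ht
      exact Subgroup.finiteIndex_of_le h1) ⊥ hbot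
  refine ⟨N, hN.prop.1, ?_, fun M hM hNM => ?_⟩
  · by_contra hcon
    rw [not_infinite_iff_finite] at hcon
    exact hN.prop.2 Subgroup.finiteIndex_of_finite_quotient
  · by_cases h : M.FiniteIndex
    · exact Or.inr h
    · exact Or.inl (le_antisymm (hN.le_of_ge ⟨hM, h⟩ hNM) hNM)

/-- A finitely generated commutative group of finite exponent is finite. -/
theorem finite_of_comm {A : Type u} [Group A] (hfg : Group.FG A) {n : ℕ} (hn : 0 < n)
    (hA : ∀ g : A, g ^ n = 1) (hcomm : ∀ a b : A, a * b = b * a) : Finite A := by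
  letI : CommGroup A := { (inferInstance : Group A) with mul_comm := hcomm }
  refine CommGroup.finite_of_fg_torsion A fun g => ?_
  exact isOfFinOrder_iff_pow_eq_one.mpr ⟨n, hn, hA g⟩

/-- In a just infinite finitely generated group of finite exponent every nontrivial element has
infinitely many conjugates. -/
theorem centralizer_infinite_index {H : Type u} [Group H] [Group.FG H] [Infinite H] {n : ℕ}
    (hn : 0 < n) (hex : ∀ g : H, g ^ n = 1)
    (hji : ∀ M : Subgroup H, M.Normal → M = ⊥ ∨ M.FiniteIndex) (y : H) (hy : y ≠ 1) :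
    ¬ (Subgroup.centralizer {y}).FiniteIndex := by
  intro hfin
  let K := (Subgroup.centralizer {y}).normalCore
  have hK : K.FiniteIndex := inferInstance
  have hKn : K.Normal := inferInstance
  let M := Subgroup.normalClosure {y}
  have hMy : y ∈ M := Subgroup.subset_normalClosure rfl
  have hM : M.FiniteIndex := by
    rcases hji M inferInstance with h | h
    · exfalso
      rw [h, Subgroup.mem_bot] at hMy
      exact hy hMy
    · exact h
  have hKy : ∀ x ∈ K, ∀ g : H, x * (g * y * g⁻¹) = (g * y * g⁻¹) * x := by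
    intro x hx g
    have h1 : g⁻¹ * x * g ∈ K := by
      have := hKn.conj_mem x hx g⁻¹
      rwa [inv_inv] at this
    have h2 := Subgroup.normalCore_le _ h1
    rw [Subgroup.mem_centralizer_iff] at h2
    have h3 := h2 y rfl
    have h4 : g * (y * (g⁻¹ * x * g)) * g⁻¹ = g * (g⁻¹ * x * g * y) * g⁻¹ := by rw [h3]
    have h5 : g * (y * (g⁻¹ * x * g)) * g⁻¹ = (g * y * g⁻¹) * x := by group
    have h6 : g * (g⁻¹ * x * g * y) * g⁻¹ = x * (g * y * g⁻¹) := by group
    rw [← h5, ← h6, h4]
  have hKM : ∀ x ∈ K, ∀ z ∈ M, z * x = x * z := by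
    intro x hx z hz
    have h1 : M ≤ Subgroup.centralizer {x} := by
      refine (Subgroup.closure_le _).mpr ?_
      intro w hw
      rw [Group.mem_conjugatesOfSet_iff] at hw
      obtain ⟨a, ha, hc⟩ := hw
      rw [Set.mem_singleton_iff] at ha
      subst ha
      rw [isConj_iff] at hc
      obtain ⟨g, rfl⟩ := hc
      rw [SetLike.mem_coe, Subgroup.mem_centralizer_iff]
      intro b hb
      rw [Set.mem_singleton_iff] at hb
      subst hb
      exact hKy _ hx g
    have h2 := h1 hz
    rw [Subgroup.mem_centralizer_iff] at h2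
    exact (h2 x rfl).symm
  have hfin2 : (K ⊓ M).FiniteIndex := inferInstance
  have hfg : Group.FG (K ⊓ M : Subgroup H) := Subgroup.fg_of_index_ne_zero _
  have hA : Finite (K ⊓ M : Subgroup H) := by
    refine finite_of_comm hfg hn (fun g => Subtype.ext (by simpa using hex g)) ?_
    rintro ⟨a, ha⟩ ⟨b, hb⟩
    apply Subtype.ext
    exact hKM b (Subgroup.mem_inf.mp hb).1 a (Subgroup.mem_inf.mp ha).2
  have h1 := Subgroup.card_mul_index (K ⊓ M)
  rw [Nat.card_eq_zero_of_infinite (α := H)] at h1
  rcases Nat.mul_eq_zero.mp h1 with h | h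
  · exact Nat.card_pos.ne' h
  · exact hfin2.index_ne_zero h

/-- The double coset relation of two cyclic subgroups. -/
theorem exists_good_sequence {H : Type u} [Group H] [Infinite H] {n : ℕ}
    (hn : 0 < n) (hex : ∀ g : H, g ^ n = 1)
    (hicc : ∀ y : H, y ≠ 1 → ¬ (Subgroup.centralizer {y}).FiniteIndex) (s t : H) :
    ∃ g : ℕ → H, (∀ i, ∀ x ∈ Subgroup.zpowers s, ∀ y ∈ Subgroup.zpowers t,
        x * g i * y = g i → x = 1 ∧ y = 1) ∧
      ∀ i j, (∃ x ∈ Subgroup.zpowers s, ∃ y ∈ Subgroup.zpowers t, x * g i * y = g j) → i = j := by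
  classical
  have hfinz : ∀ s : H, (Subgroup.zpowers s : Set H).Finite := fun s =>
    finite_zpowers.mpr (isOfFinOrder_iff_pow_eq_one.mpr ⟨n, hn, hex s⟩)
  -- good elements
  let good : Set H := {g | ∀ x ∈ Subgroup.zpowers s, ∀ y ∈ Subgroup.zpowers t,
    x * g * y = g → x = 1 ∧ y = 1}
  have hgood : good.Infinite := by
    intro hgf
    -- cover of the group by cosets of subgroups of infinite index
    let A := (hfinz s).toFinset
    let B := (hfinz t).toFinset
    -- a representative of the elements which conjugate `y` to `x⁻¹`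
    let rep : H × H → H := fun p => if h : ∃ g, p.1 * g * p.2 = g then h.choose else 1
    let I : Finset (Option (H × H) × H) :=
      ((A ×ˢ B).filter (fun p => p.2 ≠ 1)).image (fun p => (some p, rep p)) ∪
        hgf.toFinset.image (fun g => (none, g))
    let Hs : Option (H × H) × H → Subgroup H := fun q =>
      match q.1 with
      | none => ⊥
      | some p => Subgroup.centralizer {p.2}
    have hcov : ⋃ i ∈ I, (i.2) • (Hs i : Set H) = Set.univ := by
      rw [Set.eq_univ_iff_forall]
      intro g
      rw [Set.mem_iUnion₂]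
      by_cases hg : g ∈ good
      · refine ⟨(none, g), ?_, ?_⟩
        · rw [Finset.mem_union]
          right
          rw [Finset.mem_image]
          exact ⟨g, by simpa using hg, rfl⟩
        · rw [mem_leftCoset_iff]
          simp
      · simp only [good, Set.mem_setOf_eq, not_forall] at hg
        obtain ⟨x, hx, y, hy, hxy, hne⟩ := hg
        have hy1 : y ≠ 1 := by
          rintro rfl
          apply hne
          rw [mul_one] at hxy
          exact ⟨by simpa using hxy, rfl⟩
        refine ⟨(some (x, y), rep (x, y)), ?_, ?_⟩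
        · rw [Finset.mem_union]
          left
          rw [Finset.mem_image]
          refine ⟨(x, y), ?_, rfl⟩
          rw [Finset.mem_filter, Finset.mem_product]
          refine ⟨⟨?_, ?_⟩, hy1⟩
          · simpa [A] using hx
          · simpa [B] using hy
        · rw [mem_leftCoset_iff]
          have hex' : ∃ g, x * g * y = g := ⟨g, hxy⟩
          have hr : x * rep (x, y) * y = rep (x, y) := by
            have : rep (x, y) = hex'.choose := dif_pos hex'
            rw [this]
            exact hex'.choose_spec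
          show (rep (x, y))⁻¹ * g ∈ Subgroup.centralizer {y}
          rw [Subgroup.mem_centralizer_iff]
          intro z hz
          rw [Set.mem_singleton_iff] at hz
          subst hz
          -- `r⁻¹ x r = z⁻¹` and `g⁻¹ x g = z⁻¹`
          set r := rep (x, z)
          have h1 : r⁻¹ * x⁻¹ = z * r⁻¹ := by
            rw [eq_comm, ← inv_inj]
            simp only [mul_inv_rev, inv_inv]
            rw [mul_inv_eq_iff_eq_mul]
            exact hr.symm
          have h2 : x⁻¹ * g = g * z := by
            rw [inv_mul_eq_iff_eq_mul, ← mul_assoc]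
            exact hxy.symm
          calc z * (r⁻¹ * g) = (z * r⁻¹) * g := by rw [mul_assoc]
            _ = r⁻¹ * x⁻¹ * g := by rw [h1]
            _ = r⁻¹ * (x⁻¹ * g) := by rw [mul_assoc]
            _ = r⁻¹ * (g * z) := by rw [h2]
            _ = r⁻¹ * g * z := by rw [mul_assoc]
    obtain ⟨q, hq, hqf⟩ := Subgroup.exists_finiteIndex_of_leftCoset_cover hcov
    rw [Finset.mem_union] at hq
    rcases hq with hq | hq
    · rw [Finset.mem_image] at hq
      obtain ⟨p, hp, rfl⟩ := hq
      rw [Finset.mem_filter] at hp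
      exact hicc p.2 hp.2 hqf
    · rw [Finset.mem_image] at hq
      obtain ⟨g, hg, rfl⟩ := hq
      have h1 : (⊥ : Subgroup H).FiniteIndex := hqf
      have h2 := h1.index_ne_zero
      rw [Subgroup.index_bot, Nat.card_eq_zero_of_infinite] at h2
      exact h2 rfl
  -- a sequence of good elements in distinct double cosets
  let D : H → Set H := fun g => (fun p : H × H => p.1 * g * p.2) ''
    ((Subgroup.zpowers s : Set H) ×ˢ (Subgroup.zpowers t : Set H))
  have hD : ∀ g, (D g).Finite := fun g => ((hfinz s).prod (hfinz t)).image _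
  have hmem : ∀ g, g ∈ D g := fun g => ⟨(1, 1), ⟨one_mem _, one_mem _⟩, by simp⟩
  have hDeq : ∀ g g' x y, x ∈ Subgroup.zpowers s → y ∈ Subgroup.zpowers t → x * g * y = g' →
      D g = D g' := by
    have key : ∀ g g' x y, x ∈ Subgroup.zpowers s → y ∈ Subgroup.zpowers t → x * g * y = g' →
        D g' ⊆ D g := by
      rintro g g' x y hx hy rfl _ ⟨⟨a, b⟩, ⟨ha, hb⟩, rfl⟩
      refine ⟨(a * x, y * b), ⟨mul_mem ha hx, mul_mem hy hb⟩, ?_⟩
      simp only [mul_assoc]
    intro g g' x y hx hy h
    refine Set.Subset.antisymm ?_ (key g g' x y hx hy h)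
    refine key g' g x⁻¹ y⁻¹ (inv_mem hx) (inv_mem hy) ?_
    rw [← h]
    group
  have himg : (D '' good).Infinite := by
    intro hfin
    apply hgood
    have : good ⊆ ⋃ S ∈ D '' good, S := by
      intro g hg
      rw [Set.mem_iUnion₂]
      exact ⟨D g, ⟨g, hg, rfl⟩, hmem g⟩
    refine Set.Finite.subset (Set.Finite.biUnion hfin ?_) this
    rintro _ ⟨g, -, rfl⟩
    exact hD g
  obtain ⟨f⟩ : Nonempty (ℕ ↪ (D '' good : Set (Set H))) :=
    ⟨@Infinite.natEmbedding _ himg.to_subtype⟩
  have hf : ∀ i, ∃ g ∈ good, D g = (f i : Set H) := fun i => (f i).2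
  choose g hg hgf using hf
  refine ⟨g, fun i x hx y hy h => hg i x hx y hy h, ?_⟩
  rintro i j ⟨x, hx, y, hy, h⟩
  apply f.injective
  apply Subtype.ext
  rw [← hgf i, ← hgf j]
  exact hDeq _ _ x y hx hy h

end Pool.Agent.H9.Burnside
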