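import Pool.Agent.H9.Burnside.Hall
import Pool.Agent.H9.Burnside.JustInfinite

/-!
Subgroups of P. Hall's groups with as few generators as the infinite group one starts with.
-/

noncomputable section

namespace Pool.Agent.H9.Burnside

universe u v

namespace HG

variable {k : ℕ} {H : Type u} [Group H] {D : Type u} [AddCommGroup D]
  {π : MonoidAlgebra (ZMod k) H →+ D}

/-- The sum of the first `j` powers of a group element in the group ring. -/
def S (k : ℕ) {H : Type u} [Group H] (h : H) (j : ℕ) : MonoidAlgebra (ZMod k) H :=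
  ∑ i ∈ Finset.range j, U k H (h ^ i)

theorem S_succ (h : H) (j : ℕ) : S k h (j + 1) = S k h j + U k H (h ^ j) :=
  Finset.sum_range_succ _ _

theorem S_succ' (h : H) (j : ℕ) : S k h (j + 1) = 1 + S k h j * U k H h := by
  unfold S
  rw [Finset.sum_range_succ', add_comm, Finset.sum_mul]
  congr 1
  · simp
  · refine Finset.sum_congr rfl fun i _ => ?_
    rw [pow_succ, map_mul]

/-- The powers of a general element. -/
theorem pow_general (x : HG k H D π) (j : ℕ) :
    (x ^ j).a = x.a * S k x.h j ∧ (x ^ j).b = S k x.h j * x.b ∧ (x ^ j).h = x.h ^ j := by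
  induction j with
  | zero => simp [S]
  | succ j ih =>
      obtain ⟨h1, h2, h3⟩ := ih
      refine ⟨?_, ?_, ?_⟩
      · rw [pow_succ, mul_a, h1, S_succ', mul_add, mul_one, mul_assoc]
      · rw [pow_succ, mul_b, h2, h3, S_succ, add_mul]
      · rw [pow_succ, mul_h, h3, pow_succ]

theorem U_mul_S (h : H) (n : ℕ) (hh : h ^ n = 1) : S k h n * U k H h = S k h n := by
  have h1 := S_succ (k := k) h n
  rw [S_succ', hh, map_one, add_comm] at h1
  exact add_right_cancel h1

theorem S_mul_S (h : H) (n : ℕ) (hh : h ^ n = 1) : S k h n * S k h n = n • S k h n := by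
  have h1 : ∀ i, S k h n * U k H (h ^ i) = S k h n := by
    intro i
    induction i with
    | zero => simp
    | succ i ih => rw [pow_succ, map_mul, ← mul_assoc, ih, U_mul_S h n hh]
  have h2 : S k h n * S k h n = ∑ i ∈ Finset.range n, S k h n * U k H (h ^ i) := by
    rw [← Finset.mul_sum]
    rfl
  rw [h2, Finset.sum_congr rfl fun i _ => h1 i]
  simp

theorem smul_D_eq_zero (hD : ∀ x : D, k • x = 0) (j : ℕ) (hj : k ∣ j) (x : D) : j • x = 0 := by
  obtain ⟨r, rfl⟩ := hj
  rw [mul_comm, mul_smul, hD, smul_zero]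

theorem pow_eq_one_aux (n : ℕ) (hH : ∀ h : H, h ^ n = 1) (hD : ∀ x : D, k • x = 0) (j : ℕ)
    (hj : k ∣ j) (hj2 : k ∣ j.choose 2 * n) (x : HG k H D π) : x ^ (j * n) = 1 := by
  obtain ⟨h1, h2, h3⟩ := pow_general x n
  have h4 : x ^ n = ⟨x.a * S k x.h n, S k x.h n * x.b, (x ^ n).c, 1⟩ := by
    ext1
    · exact h1
    · exact h2
    · rfl
    · exact h3.trans (hH _)
  rw [mul_comm, pow_mul, h4, pow_unipotent, smul_algebra_eq_zero _ hj,
    smul_algebra_eq_zero _ hj, smul_D_eq_zero hD _ hj]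
  have h5 : x.a * S k x.h n * (S k x.h n * x.b) = n • (x.a * S k x.h n * x.b) := by
    rw [mul_assoc, ← mul_assoc (S k x.h n) (S k x.h n), S_mul_S _ _ (hH _)]
    simp only [smul_mul_assoc, mul_smul_comm, mul_assoc]
  rw [h5, map_nsmul, ← mul_smul, smul_D_eq_zero hD _ hj2]
  simp [one_def]

/-- The exponent of the groups. -/
theorem pow_eq_one' (n : ℕ) (hH : ∀ h : H, h ^ n = 1) (hD : ∀ x : D, k • x = 0)
    (x : HG k H D π) : x ^ (if Odd k ∨ Even n then k * n else 2 * k * n) = 1 := by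
  split_ifs with h
  · refine pow_eq_one_aux n hH hD k dvd_rfl ?_ x
    rcases h with h | h
    · obtain ⟨r, rfl⟩ := h
      rw [Nat.choose_two_right]
      have : (2 * r + 1) * (2 * r + 1 - 1) = 2 * ((2 * r + 1) * r) := by
        simp only [Nat.add_sub_cancel]; ring
      rw [this, Nat.mul_div_cancel_left _ (by norm_num), mul_assoc]
      exact Dvd.intro _ rfl
    · obtain ⟨r, rfl⟩ := h
      have h1 : k.choose 2 * (r + r) = k * ((k - 1) * r) := by
        have h2 : k.choose 2 * 2 = k * (k - 1) := by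
          rw [Nat.choose_two_right, Nat.div_mul_cancel]
          exact (Nat.even_mul_pred_self k).two_dvd
        calc k.choose 2 * (r + r) = (k.choose 2 * 2) * r := by ring
          _ = k * (k - 1) * r := by rw [h2]
          _ = k * ((k - 1) * r) := by ring
      rw [h1]
      exact Dvd.intro _ rfl
  · refine pow_eq_one_aux n hH hD (2 * k) (Dvd.intro_left 2 rfl) ?_ x
    rw [Nat.choose_two_right, mul_assoc, Nat.mul_div_cancel_left _ (by norm_num)]
    rw [mul_assoc]
    exact Dvd.intro _ rfl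

/-! ### The subgroup with few generators -/

/-- The generators. -/
def gensL (π : MonoidAlgebra (ZMod k) H →+ D) {d : ℕ} (s : Fin (d + 2) → H) :
    Fin (d + 2) → HG k H D π :=
  Fin.cons ⟨1, 0, 0, s 0⟩ (Fin.cons ⟨0, 1, 0, s 1⟩ fun i => ⟨0, 0, 0, s i.succ.succ⟩)

/-- The subgroup. -/
def L (π : MonoidAlgebra (ZMod k) H →+ D) {d : ℕ} (s : Fin (d + 2) → H) :
    Subgroup (HG k H D π) :=
  Subgroup.closure (Set.range (gensL π s))

variable {d : ℕ} {s : Fin (d + 2) → H}

theorem exists_lift (hs : Subgroup.closure (Set.range s) = ⊤) (t : H) :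
    ∃ l ∈ L π s, l.h = t := by
  have h1 : Subgroup.closure (Set.range s) ≤ (L π s).map (toH π) := by
    rw [L, MonoidHom.map_closure]
    refine Subgroup.closure_mono ?_
    rintro _ ⟨i, rfl⟩
    refine ⟨gensL π s i, ⟨i, rfl⟩, ?_⟩
    refine Fin.cases ?_ (fun i => ?_) i
    · rfl
    · refine Fin.cases ?_ (fun i => ?_) i
      · rfl
      · rfl
  have h2 : t ∈ (L π s).map (toH π) := h1 (by rw [hs]; trivial)
  obtain ⟨l, hl, hlt⟩ := h2
  exact ⟨l, hl, hlt⟩

theorem nu_mem0 : (⟨S k (s 0) (orderOf (s 0)), 0, 0, 1⟩ : HG k H D π) ∈ L π s := by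
  have h0 : (⟨1, 0, 0, s 0⟩ : HG k H D π) ∈ L π s := Subgroup.subset_closure ⟨0, rfl⟩
  have h1 : ∀ j, (⟨1, 0, 0, s 0⟩ : HG k H D π) ^ j = ⟨S k (s 0) j, 0, 0, (s 0) ^ j⟩ := by
    intro j
    induction j with
    | zero => simp [S, one_def]
    | succ j ih =>
        rw [pow_succ, ih, mul_def]
        ext1
        · rw [S_succ']
        · simp
        · simp
        · exact (pow_succ _ _).symm
  have h2 := (L π s).pow_mem h0 (orderOf (s 0))
  rw [h1, pow_orderOf_eq_one] at h2
  exact h2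

theorem nu_mem1 : (⟨0, S k (s 1) (orderOf (s 1)), 0, 1⟩ : HG k H D π) ∈ L π s := by
  have h0 : (⟨0, 1, 0, s 1⟩ : HG k H D π) ∈ L π s := Subgroup.subset_closure ⟨1, rfl⟩
  have h1 : ∀ j, (⟨0, 1, 0, s 1⟩ : HG k H D π) ^ j = ⟨0, S k (s 1) j, 0, (s 1) ^ j⟩ := by
    intro j
    induction j with
    | zero => simp [S, one_def]
    | succ j ih =>
        rw [pow_succ, ih, mul_def]
        ext1
        · simp
        · rw [S_succ, mul_one]
        · simp
        · exact (pow_succ _ _).symm
  have h2 := (L π s).pow_mem h0 (orderOf (s 1))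
  rw [h1, pow_orderOf_eq_one] at h2
  exact h2

theorem nu_conj_mem (hs : Subgroup.closure (Set.range s) = ⊤) (t : H) :
    ∃ c : D, (⟨S k (s 0) (orderOf (s 0)) * U k H t, 0, c, 1⟩ : HG k H D π) ∈ L π s := by
  obtain ⟨l, hl, rfl⟩ := exists_lift (π := π) hs t
  refine ⟨π (S k (s 0) (orderOf (s 0)) * l.b), ?_⟩
  have h1 : l * (⟨S k (s 0) (orderOf (s 0)) * U k H l.h, 0,
      π (S k (s 0) (orderOf (s 0)) * l.b), 1⟩ : HG k H D π) =
      ⟨S k (s 0) (orderOf (s 0)), 0, 0, 1⟩ * l := by
    rw [mul_def, mul_def]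
    ext1
    · simp [add_comm]
    · simp
    · simp [add_comm]
    · simp
  have h2 : (⟨S k (s 0) (orderOf (s 0)) * U k H l.h, 0,
      π (S k (s 0) (orderOf (s 0)) * l.b), 1⟩ : HG k H D π) =
      l⁻¹ * (⟨S k (s 0) (orderOf (s 0)), 0, 0, 1⟩ * l) := by
    rw [← h1, inv_mul_cancel_left]
  rw [h2]
  exact (L π s).mul_mem ((L π s).inv_mem hl) ((L π s).mul_mem nu_mem0 hl)

theorem corner_mem (hs : Subgroup.closure (Set.range s) = ⊤) (t : H) :
    (⟨0, 0, π (S k (s 0) (orderOf (s 0)) * U k H t * S k (s 1) (orderOf (s 1))), 1⟩ :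
      HG k H D π) ∈ L π s := by
  obtain ⟨c, hc⟩ := nu_conj_mem (π := π) hs t
  have h1 : (⟨S k (s 0) (orderOf (s 0)) * U k H t, 0, c, 1⟩ : HG k H D π) *
      ⟨0, S k (s 1) (orderOf (s 1)), 0, 1⟩ =
      ⟨0, 0, π (S k (s 0) (orderOf (s 0)) * U k H t * S k (s 1) (orderOf (s 1))), 1⟩ *
      (⟨0, S k (s 1) (orderOf (s 1)), 0, 1⟩ *
        ⟨S k (s 0) (orderOf (s 0)) * U k H t, 0, c, 1⟩) := by
    simp only [mul_def]
    ext1
    · simp
    · simp
    · simp [add_comm]
    · simp
  have h2 := (L π s).mul_mem ((L π s).mul_mem hc nu_mem1)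
    ((L π s).inv_mem ((L π s).mul_mem nu_mem1 hc))
  rw [h1, mul_inv_cancel_right] at h2
  exact h2

theorem coeff_S (hk : 2 ≤ k) (h g : H) (hg : (S k h (orderOf h)).coeff g ≠ 0) :
    g ∈ Subgroup.zpowers h := by
  classical
  by_contra hcon
  apply hg
  unfold S
  rw [MonoidAlgebra.coeff_sum, Finsupp.finsetSum_apply]
  refine Finset.sum_eq_zero fun i _ => ?_
  rw [U_apply, MonoidAlgebra.coeff_single, Finsupp.single_apply, if_neg]
  intro h1
  exact hcon (h1 ▸ Subgroup.npow_mem_zpowers h i)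

theorem coeff_S_one (hk : 2 ≤ k) (h : H) (hh : IsOfFinOrder h) :
    (S k h (orderOf h)).coeff 1 = 1 := by
  classical
  unfold S
  rw [MonoidAlgebra.coeff_sum, Finsupp.finsetSum_apply, Finset.sum_eq_single 0]
  · simp [U_apply]
  · intro i hi hi0
    rw [U_apply, MonoidAlgebra.coeff_single, Finsupp.single_apply, if_neg]
    rw [Finset.mem_range] at hi
    exact pow_ne_one_of_lt_orderOf hi0 hi
  · intro h1
    exact absurd (Finset.mem_range.mpr hh.orderOf_pos) h1

/-- The centre of the subgroup. -/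
theorem mem_center_L_iff [Infinite H] (hk : 2 ≤ k) {n : ℕ} (hn : 0 < n)
    (hex : ∀ g : H, g ^ n = 1) (hji : ∀ M : Subgroup H, M.Normal → M = ⊥ ∨ M.FiniteIndex)
    (hs : Subgroup.closure (Set.range s) = ⊤) (x : L π s) :
    x ∈ Subgroup.center (L π s) ↔ x.1.a = 0 ∧ x.1.b = 0 ∧ x.1.h = 1 := by
  have : Fact (1 < k) := ⟨hk⟩
  constructor
  · intro hx
    rw [Subgroup.mem_center_iff] at hx
    have hx' : ∀ l ∈ L π s, l * x.1 = x.1 * l := fun l hl => congrArg Subtype.val (hx ⟨l, hl⟩)
    have hfo : IsOfFinOrder (s 0) := isOfFinOrder_iff_pow_eq_one.mpr ⟨n, hn, hex _⟩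
    have hh : x.1.h = 1 := by
      have hconj : ∀ t : H, t * x.1.h * t⁻¹ ∈ Subgroup.zpowers (s 0) := by
        intro t
        obtain ⟨c, hc⟩ := nu_conj_mem (π := π) hs t
        have h1 := congrArg HG.a (hx' _ hc)
        simp only [mul_a, map_one, mul_one] at h1
        rw [add_comm] at h1
        have h2 := add_right_cancel h1
        have h3 : S k (s 0) (orderOf (s 0)) * U k H (t * x.1.h * t⁻¹) =
            S k (s 0) (orderOf (s 0)) := by
          rw [map_mul, map_mul, ← mul_assoc, ← mul_assoc, h2, mul_assoc, ← map_mul]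
          simp
        have h4 := congrArg (fun y => y.coeff (t * x.1.h * t⁻¹)) h3
        simp only [U_apply, MonoidAlgebra.coeff_mul_single_apply, mul_one, mul_inv_cancel] at h4
        rw [coeff_S_one hk _ hfo] at h4
        apply coeff_S hk
        rw [← h4]
        exact one_ne_zero
      by_contra hne
      have hle : Subgroup.normalClosure {x.1.h} ≤ Subgroup.zpowers (s 0) := by
        refine (Subgroup.closure_le _).mpr ?_
        intro w hw
        rw [Group.mem_conjugatesOfSet_iff] at hw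
        obtain ⟨a, ha, hc⟩ := hw
        rw [Set.mem_singleton_iff] at ha
        subst ha
        rw [isConj_iff] at hc
        obtain ⟨g, rfl⟩ := hc
        exact hconj g
      rcases hji (Subgroup.normalClosure {x.1.h}) inferInstance with h | h
      · have h1 : x.1.h ∈ Subgroup.normalClosure {x.1.h} := Subgroup.subset_normalClosure rfl
        rw [h, Subgroup.mem_bot] at h1
        exact hne h1
      · have h1 : (Subgroup.zpowers (s 0)).FiniteIndex := Subgroup.finiteIndex_of_le hle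
        have h2 : Finite (Subgroup.zpowers (s 0)) := (finite_zpowers.mpr hfo).to_subtype
        have h3 := Subgroup.card_mul_index (Subgroup.zpowers (s 0))
        rw [Nat.card_eq_zero_of_infinite (α := H)] at h3
        rcases Nat.mul_eq_zero.mp h3 with h | h
        · exact Nat.card_pos.ne' h
        · exact h1.index_ne_zero h
    refine ⟨?_, ?_, hh⟩
    · refine eq_zero_of_mul_right _ fun t => ?_
      obtain ⟨l, hl, rfl⟩ := exists_lift (π := π) hs t
      have h1 := congrArg HG.a (hx' l hl)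
      simp only [mul_a, hh, map_one, mul_one] at h1
      rw [add_comm] at h1
      exact (add_left_cancel h1).symm
    · refine eq_zero_of_mul_left _ fun t => ?_
      obtain ⟨l, hl, rfl⟩ := exists_lift (π := π) hs t
      have h1 := congrArg HG.b (hx' l hl)
      simp only [mul_b, hh, map_one, one_mul] at h1
      rw [add_comm] at h1
      exact add_right_cancel h1
  · rintro ⟨ha, hb, hh⟩
    rw [Subgroup.mem_center_iff]
    intro y
    apply Subtype.ext
    show y.1 * x.1 = x.1 * y.1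
    rw [mul_def, mul_def]
    ext1 <;> simp [ha, hb, hh, add_comm]

theorem center_L_equiv [Infinite H] (hk : 2 ≤ k) {n : ℕ} (hn : 0 < n)
    (hex : ∀ g : H, g ^ n = 1) (hji : ∀ M : Subgroup H, M.Normal → M = ⊥ ∨ M.FiniteIndex)
    (hs : Subgroup.closure (Set.range s) = ⊤)
    (hπ : ∀ c : D, ∃ t : H,
      π (S k (s 0) (orderOf (s 0)) * U k H t * S k (s 1) (orderOf (s 1))) = c) :
    Nonempty (Subgroup.center (L π s) ≃* Multiplicative D) := by
  have hmem : ∀ c : Multiplicative D, corner π c ∈ L π s := by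
    intro c
    obtain ⟨t, ht⟩ := hπ c.toAdd
    have h1 := corner_mem (π := π) hs t
    rw [ht] at h1
    exact h1
  let cor : Multiplicative D →* L π s := (corner π).codRestrict _ hmem
  have hcor : Function.Injective cor := by
    intro x y h
    exact corner_injective (congrArg Subtype.val h)
  have h1 : cor.range = Subgroup.center (L π s) := by
    ext x
    rw [mem_center_L_iff hk hn hex hji hs]
    constructor
    · rintro ⟨c, rfl⟩
      exact ⟨rfl, rfl, rfl⟩
    · rintro ⟨ha, hb, hh⟩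
      refine ⟨Multiplicative.ofAdd x.1.c, ?_⟩
      apply Subtype.ext
      ext1
      · exact ha.symm
      · exact hb.symm
      · rfl
      · exact hh.symm
  rw [← h1]
  exact ⟨(MonoidHom.ofInjective hcor).symm⟩

theorem generated_L (π : MonoidAlgebra (ZMod k) H →+ D) (s : Fin (d + 2) → H) :
    ∃ g : Fin (d + 2) → L π s, Subgroup.closure (Set.range g) = ⊤ := by
  refine ⟨fun i => ⟨gensL π s i, Subgroup.subset_closure ⟨i, rfl⟩⟩, ?_⟩
  have h1 := Subgroup.closure_closure_coe_preimage (k := Set.range (gensL π s))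
  have h2 : Set.range (fun i => (⟨gensL π s i, Subgroup.subset_closure ⟨i, rfl⟩⟩ : L π s)) =
      Subtype.val ⁻¹' Set.range (gensL π s) := by
    ext x
    constructor
    · rintro ⟨i, rfl⟩
      exact ⟨i, rfl⟩
    · rintro ⟨i, hi⟩
      exact ⟨i, Subtype.ext hi⟩
  rw [h2]
  exact h1

/-! ### The maps onto the given group -/

open Classical in
/-- The values attached to a set of natural numbers. -/
def valG (D : Type u) [AddCommGroup D] (g : ℕ → H) (e : ℕ ≃ ℕ ⊕ ℕ) (σ : ℕ → D) (e0 : D)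
    (X : Set ℕ) (h : H) : D :=
  if hh : ∃ i, g i = h then Sum.elim σ (fun i => if i ∈ X then e0 else 0) (e hh.choose) else 0

theorem valG_apply (g : ℕ → H) (hg : Function.Injective g) (e : ℕ ≃ ℕ ⊕ ℕ) (σ : ℕ → D)
    (e0 : D) (X : Set ℕ) [DecidablePred (· ∈ X)] (i : ℕ) :
    valG D g e σ e0 X (g i) = Sum.elim σ (fun i => if i ∈ X then e0 else 0) (e i) := by
  have hex : ∃ j, g j = g i := ⟨i, rfl⟩
  unfold valG
  rw [dif_pos hex]
  have h1 : hex.choose = i := hg hex.choose_spec
  rw [h1]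
  cases e i with
  | inl j => rfl
  | inr j => simp only [Sum.elim_inr]; split_ifs <;> rfl

theorem valG_of_ne (g : ℕ → H) (e : ℕ ≃ ℕ ⊕ ℕ) (σ : ℕ → D) (e0 : D) (X : Set ℕ) (h : H)
    (hh : ¬ ∃ i, g i = h) : valG D g e σ e0 X h = 0 := by
  unfold valG
  rw [dif_neg hh]

/-- The conditions on the sequence of representatives of double cosets. -/
structure GoodSeq (a b : H) (g : ℕ → H) : Prop where
  triv : ∀ i, ∀ x ∈ Subgroup.zpowers a, ∀ y ∈ Subgroup.zpowers b, x * g i * y = g i → x = 1 ∧ y = 1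
  dist : ∀ i j, (∃ x ∈ Subgroup.zpowers a, ∃ y ∈ Subgroup.zpowers b, x * g i * y = g j) → i = j

theorem GoodSeq.injective {a b : H} {g : ℕ → H} (hg : GoodSeq a b g) : Function.Injective g := by
  intro i j h
  exact hg.dist i j ⟨1, one_mem _, 1, one_mem _, by simpa using h⟩

theorem prod_eq_sum (a b t : H) :
    S k a (orderOf a) * U k H t * S k b (orderOf b) =
      ∑ i ∈ Finset.range (orderOf a), ∑ j ∈ Finset.range (orderOf b),
        U k H (a ^ i * t * b ^ j) := by
  unfold S
  rw [Finset.sum_mul, Finset.sum_mul]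
  refine Finset.sum_congr rfl fun i _ => ?_
  rw [Finset.mul_sum]
  refine Finset.sum_congr rfl fun j _ => ?_
  rw [map_mul, map_mul]

theorem piOf_prod (hD : ∀ x : D, k • x = 0) {a b : H} (ha : IsOfFinOrder a)
    (hb : IsOfFinOrder b) {g : ℕ → H} (hg : GoodSeq a b g) (f : H → D)
    (hf : ∀ h, (¬ ∃ i, g i = h) → f h = 0) (i : ℕ) :
    piOf hD f (S k a (orderOf a) * U k H (g i) * S k b (orderOf b)) = f (g i) := by
  rw [prod_eq_sum, map_sum, Finset.sum_eq_single 0]
  · rw [map_sum, Finset.sum_eq_single 0]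
    · rw [piOf_U]
      simp
    · intro j hj hj0
      rw [piOf_U]
      apply hf
      rintro ⟨l, hl⟩
      have h1 : i = l := hg.dist i l ⟨a ^ 0, Subgroup.npow_mem_zpowers a 0, b ^ j,
        Subgroup.npow_mem_zpowers b j, hl.symm⟩
      subst h1
      have h2 := hg.triv i (a ^ 0) (Subgroup.npow_mem_zpowers a 0) (b ^ j)
        (Subgroup.npow_mem_zpowers b j) hl.symm
      rw [Finset.mem_range] at hj
      exact pow_ne_one_of_lt_orderOf hj0 hj h2.2
    · intro h1
      exact absurd (Finset.mem_range.mpr hb.orderOf_pos) h1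
  · intro j hj hj0
    rw [map_sum]
    refine Finset.sum_eq_zero fun m _ => ?_
    rw [piOf_U]
    apply hf
    rintro ⟨l, hl⟩
    have h1 : i = l := hg.dist i l ⟨a ^ j, Subgroup.npow_mem_zpowers a j, b ^ m,
      Subgroup.npow_mem_zpowers b m, hl.symm⟩
    subst h1
    have h2 := hg.triv i (a ^ j) (Subgroup.npow_mem_zpowers a j) (b ^ m)
      (Subgroup.npow_mem_zpowers b m) hl.symm
    rw [Finset.mem_range] at hj
    exact pow_ne_one_of_lt_orderOf hj0 hj h2.1
  · intro h1
    exact absurd (Finset.mem_range.mpr ha.orderOf_pos) h1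

/-- The maps attached to the sets of natural numbers. -/
def piG (hD : ∀ x : D, k • x = 0) (g : ℕ → H) (e : ℕ ≃ ℕ ⊕ ℕ) (σ : ℕ → D) (e0 : D)
    (X : Set ℕ) : MonoidAlgebra (ZMod k) H →+ D :=
  piOf hD (valG D g e σ e0 X)

theorem piG_surj (hD : ∀ x : D, k • x = 0) {a b : H} (ha : IsOfFinOrder a)
    (hb : IsOfFinOrder b) {g : ℕ → H} (hg : GoodSeq a b g) (e : ℕ ≃ ℕ ⊕ ℕ) (σ : ℕ → D)
    (hσ : Function.Surjective σ) (e0 : D) (X : Set ℕ) (c : D) :
    ∃ t : H, piG (k := k) hD g e σ e0 X
      (S k a (orderOf a) * U k H t * S k b (orderOf b)) = c := by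
  classical
  obtain ⟨i, rfl⟩ := hσ c
  refine ⟨g (e.symm (Sum.inl i)), ?_⟩
  rw [piG, piOf_prod hD ha hb hg _ (fun h hh => valG_of_ne g e σ e0 X h hh),
    valG_apply g hg.injective]
  simp

theorem piG_eq_zero_iff (hD : ∀ x : D, k • x = 0) {a b : H} (ha : IsOfFinOrder a)
    (hb : IsOfFinOrder b) {g : ℕ → H} (hg : GoodSeq a b g) (e : ℕ ≃ ℕ ⊕ ℕ) (σ : ℕ → D)
    (e0 : D) (he0 : e0 ≠ 0) (X : Set ℕ) (i : ℕ) :
    piG (k := k) hD g e σ e0 X
      (S k a (orderOf a) * U k H (g (e.symm (Sum.inr i))) * S k b (orderOf b)) = 0 ↔ i ∉ X := by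
  classical
  rw [piG, piOf_prod hD ha hb hg _ (fun h hh => valG_of_ne g e σ e0 X h hh),
    valG_apply g hg.injective]
  simp only [Equiv.apply_symm_apply, Sum.elim_inr]
  split_ifs with h
  · simp [he0, h]
  · simp [h]

/-- The induced map between the subgroups. -/
def LMap (π : MonoidAlgebra (ZMod k) H →+ D) (s : Fin (d + 2) → H) :
    L (AddMonoidHom.id (MonoidAlgebra (ZMod k) H)) s →* L π s :=
  ((toHG π).comp (L (AddMonoidHom.id (MonoidAlgebra (ZMod k) H)) s).subtype).codRestrict _ (by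
    rintro ⟨x, hx⟩
    have h1 : (L (AddMonoidHom.id (MonoidAlgebra (ZMod k) H)) s).map (toHG π) ≤ L π s := by
      unfold L
      rw [MonoidHom.map_closure, Subgroup.closure_le]
      rintro _ ⟨_, ⟨i, rfl⟩, rfl⟩
      refine Subgroup.subset_closure ⟨i, ?_⟩
      refine Fin.cases ?_ (fun i => ?_) i
      · simp [gensL, toHG]
      · refine Fin.cases ?_ (fun i => ?_) i
        · simp [gensL, toHG]
        · simp [gensL, toHG]
    exact h1 ⟨x, hx, rfl⟩)

theorem LMap_coe (π : MonoidAlgebra (ZMod k) H →+ D) (s : Fin (d + 2) → H)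
    (x : L (AddMonoidHom.id (MonoidAlgebra (ZMod k) H)) s) :
    (LMap π s x : HG k H D π) = toHG π x := rfl

/-- Only countably many of the subgroups are isomorphic to a given one. -/
theorem countable_class_L [NeZero k] [Countable D] (s : Fin (d + 2) → H)
    (hs : Subgroup.closure (Set.range s) = ⊤) (ha : IsOfFinOrder (s 0))
    (hb : IsOfFinOrder (s 1)) {g : ℕ → H} (hg : GoodSeq (s 0) (s 1) g)
    (hD : ∀ x : D, k • x = 0) (e : ℕ ≃ ℕ ⊕ ℕ) (σ : ℕ → D) (e0 : D) (he0 : e0 ≠ 0)
    (Y : Set ℕ) :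
    {X : Set ℕ | Nonempty (L (piG (k := k) hD g e σ e0 X) s ≃*
      L (piG (k := k) hD g e σ e0 Y) s)}.Countable := by
  classical
  have hHc : Countable H := countable_of_generated s hs
  obtain ⟨gg, hgg⟩ := generated_L (AddMonoidHom.id (MonoidAlgebra (ZMod k) H)) s
  have : Countable (L (AddMonoidHom.id (MonoidAlgebra (ZMod k) H)) s →*
      L (piG (k := k) hD g e σ e0 Y) s) := countable_hom gg hgg
  rw [← Set.countable_coe_iff]
  let F : {X : Set ℕ | Nonempty (L (piG (k := k) hD g e σ e0 X) s ≃*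
      L (piG (k := k) hD g e σ e0 Y) s)} →
      (L (AddMonoidHom.id (MonoidAlgebra (ZMod k) H)) s →*
        L (piG (k := k) hD g e σ e0 Y) s) := fun X =>
    (Classical.choice X.2).toMonoidHom.comp (LMap (piG hD g e σ e0 X) s)
  let c : ℕ → L (AddMonoidHom.id (MonoidAlgebra (ZMod k) H)) s := fun i =>
    ⟨_, corner_mem (π := AddMonoidHom.id (MonoidAlgebra (ZMod k) H)) hs
      (g (e.symm (Sum.inr i)))⟩
  have hF : ∀ X i, F X (c i) = 1 ↔ i ∉ (X : Set ℕ) := by
    intro X i
    rw [← piG_eq_zero_iff (k := k) hD ha hb hg e σ e0 he0 X i]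
    show (Classical.choice X.2) (LMap (piG hD g e σ e0 X) s (c i)) = 1 ↔ _
    rw [map_eq_one_iff _ (Classical.choice X.2).injective]
    constructor
    · intro h
      exact congrArg (fun y => HG.c (Subtype.val y)) h
    · intro h
      apply Subtype.ext
      rw [LMap_coe]
      show _ = (1 : HG k H D _)
      rw [one_def]
      ext1
      · rfl
      · rfl
      · exact h
      · rfl
  have hinj : Function.Injective F := by
    intro X X' h
    apply Subtype.ext
    ext i
    have h1 := hF X i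
    rw [h, hF X' i] at h1
    exact (not_iff_not.mp h1).symm
  exact hinj.countable

end HG

end Pool.Agent.H9.Burnside
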