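import Pool.Agent.H9.Burnside.HallTwo
import Pool.Agent.H9.Burnside.Generic

/-!
P. Hall's groups as a family indexed by the functions on the infinite group, with the shift; the
first order theory as a measurable invariant.
-/

open Filter Topology Set

noncomputable section

namespace Pool.Agent.H9.Burnside

/-! ### The language of groups -/

/-- The function symbols of the language of groups. -/
inductive GroupFunc : ℕ → Type
  | one : GroupFunc 0
  | inv : GroupFunc 1
  | mul : GroupFunc 2

/-- The first order language of groups. -/
def groupLanguage : FirstOrder.Language := ⟨GroupFunc, fun _ => Empty⟩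

/-- A group as a structure for the language of groups. -/
instance groupStructure (G : Type) [Group G] : groupLanguage.Structure G where
  funMap {_} f xs :=
    match f with
    | GroupFunc.one => 1
    | GroupFunc.inv => (xs 0)⁻¹
    | GroupFunc.mul => xs 0 * xs 1
  RelMap {_} r _ := nomatch r

instance : Countable groupLanguage.Symbols := by
  have h1 : ∀ n, Countable (GroupFunc n) := by
    intro n
    have : Function.Injective (fun f : GroupFunc n => (match f with
      | GroupFunc.one => 0
      | GroupFunc.inv => 1
      | GroupFunc.mul => 2 : ℕ)) := by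
      intro a b h
      cases a <;> cases b <;> first | rfl | (simp at h)
    exact this.countable
  have h2 : Countable (Σ l, groupLanguage.Functions l) := by
    have : ∀ l, Countable (groupLanguage.Functions l) := h1
    infer_instance
  have h3 : Countable (Σ l, groupLanguage.Relations l) := by
    have : ∀ l, Countable (groupLanguage.Relations l) := fun l =>
      (inferInstance : Countable Empty)
    infer_instance
  unfold FirstOrder.Language.Symbols
  infer_instance

/-- Terms are compatible with homomorphisms. -/
theorem realize_term_hom {G G' : Type} [Group G] [Group G'] (φ : G →* G') {α : Type}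
    (t : groupLanguage.Term α) (v : α → G) :
    t.realize (fun a => φ (v a)) = φ (t.realize v) := by
  induction t with
  | var a => rfl
  | func f ts ih =>
      simp only [FirstOrder.Language.Term.realize]
      match f, ts, ih with
      | GroupFunc.one, ts, ih => exact (map_one φ).symm
      | GroupFunc.inv, ts, ih =>
          show ((ts 0).realize (fun a => φ (v a)))⁻¹ = φ (((ts 0).realize v)⁻¹)
          rw [ih 0, map_inv]
      | GroupFunc.mul, ts, ih =>
          show (ts 0).realize (fun a => φ (v a)) * (ts 1).realize (fun a => φ (v a)) =
            φ ((ts 0).realize v * (ts 1).realize v)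
          rw [ih 0, ih 1, map_mul]

/-- Isomorphic groups are elementarily equivalent. -/
theorem elementarilyEquivalent_of_mulEquiv {G G' : Type} [Group G] [Group G'] (e : G ≃* G') :
    groupLanguage.ElementarilyEquivalent G G' := by
  have e' : FirstOrder.Language.Equiv groupLanguage G G' :=
    { toEquiv := e.toEquiv
      map_fun' := by
        intro n f xs
        match n, f, xs with
        | _, GroupFunc.one, xs => exact map_one e
        | _, GroupFunc.inv, xs => exact map_inv e _
        | _, GroupFunc.mul, xs => exact map_mul e _ _
      map_rel' := by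
        intro n r
        exact nomatch r }
  exact FirstOrder.Language.StrongHomClass.elementarilyEquivalent e'

namespace HG

variable {k : ℕ} {H : Type} [Group H] {D : Type} [AddCommGroup D]

/-! ### The shift -/

theorem piOf_shift (hD : ∀ x : D, k • x = 0) [NeZero k] (x : H) (X : H → D)
    (a : MonoidAlgebra (ZMod k) H) : piOf hD X (U k H x * a) = piOf hD (shift x X) a := by
  let T : AddSubgroup (MonoidAlgebra (ZMod k) H) :=
    { carrier := {a | piOf hD X (U k H x * a) = piOf hD (shift x X) a}
      zero_mem' := by simp
      add_mem' := by
        intro a b ha hb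
        show piOf hD X (U k H x * (a + b)) = piOf hD (shift x X) (a + b)
        have ha' : piOf hD X (U k H x * a) = piOf hD (shift x X) a := ha
        have hb' : piOf hD X (U k H x * b) = piOf hD (shift x X) b := hb
        rw [mul_add, map_add, map_add, ha', hb']
      neg_mem' := by
        intro a ha
        show piOf hD X (U k H x * (-a)) = piOf hD (shift x X) (-a)
        have ha' : piOf hD X (U k H x * a) = piOf hD (shift x X) a := ha
        rw [mul_neg, map_neg, map_neg, ha'] }
  have hT : T = ⊤ := addSubgroup_eq_top T fun h => by
    show piOf hD X (U k H x * U k H h) = piOf hD (shift x X) (U k H h)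
    rw [← map_mul, piOf_U, piOf_U]
    rfl
  have : a ∈ T := by rw [hT]; trivial
  exact this

/-- Shifts give isomorphic groups. -/
def shiftEquiv (hD : ∀ x : D, k • x = 0) [NeZero k] (x : H) (X : H → D) :
    HG k H D (piOf hD (shift x X)) ≃* HG k H D (piOf hD X) where
  toFun y := ⟨U k H x * y.a, y.b, y.c, y.h⟩
  invFun y := ⟨U k H x⁻¹ * y.a, y.b, y.c, y.h⟩
  left_inv y := by
    ext1
    · show U k H x⁻¹ * (U k H x * y.a) = y.a
      rw [← mul_assoc, ← map_mul]
      simp
    · rfl
    · rfl
    · rfl
  right_inv y := by
    ext1
    · show U k H x * (U k H x⁻¹ * y.a) = y.a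
      rw [← mul_assoc, ← map_mul]
      simp
    · rfl
    · rfl
    · rfl
  map_mul' y z := by
    rw [mul_def, mul_def]
    ext1
    · simp only [mul_add, mul_assoc]
    · rfl
    · show y.c + z.c + piOf hD (shift x X) (y.a * z.b) =
        y.c + z.c + piOf hD X (U k H x * y.a * z.b)
      rw [mul_assoc, piOf_shift]
    · rfl

/-! ### Countable classes -/

theorem same_kernel_finite [Finite D] (hD : ∀ x : D, k • x = 0) (X0 : H → D) :
    {X : H → D | ∀ c, piOf (k := k) hD X c = 0 ↔ piOf (k := k) hD X0 c = 0}.Finite := by
  classical
  have hfin : (Set.range (fun (α : D → D) (h : H) => α (X0 h))).Finite := Set.finite_range _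
  refine hfin.subset ?_
  intro X hX
  have hwd : ∀ h h', X0 h = X0 h' → X h = X h' := by
    intro h h' he
    have h1 := (hX (U k H h - U k H h')).mpr (by rw [map_sub, piOf_U, piOf_U, he, sub_self])
    rw [map_sub, piOf_U, piOf_U, sub_eq_zero] at h1
    exact h1
  refine ⟨fun d => if hd : ∃ h, X0 h = d then X hd.choose else 0, ?_⟩
  funext h
  have hd : ∃ h', X0 h' = X0 h := ⟨h, rfl⟩
  show (if hd : ∃ h', X0 h' = X0 h then X hd.choose else 0) = X h
  rw [dif_pos hd]
  exact hwd _ _ hd.choose_spec

/-- Only countably many of the groups are isomorphic to a given countable group. -/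
theorem countable_class_X [NeZero k] [Finite D] {d : ℕ} (s : Fin d → H)
    (hs : Subgroup.closure (Set.range s) = ⊤) (hD : ∀ x : D, k • x = 0)
    (Q : Type) [Group Q] [Countable Q] :
    {X : H → D | Nonempty (HG k H D (piOf hD X) ≃* Q)}.Countable := by
  classical
  have hHc : Countable H := countable_of_generated s hs
  let G := HG k H (MonoidAlgebra (ZMod k) H) (AddMonoidHom.id _)
  have hG := closure_gens (π := AddMonoidHom.id (MonoidAlgebra (ZMod k) H))
    Function.surjective_id s hs
  have hcount : Countable (G →* Q) := countable_hom _ hG
  have hsub : {X : H → D | Nonempty (HG k H D (piOf hD X) ≃* Q)} ⊆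
      ⋃ F : G →* Q, {X : H → D | ∀ c, piOf (k := k) hD X c = 0 ↔ F ⟨0, 0, c, 1⟩ = 1} := by
    rintro X ⟨e⟩
    rw [mem_iUnion]
    refine ⟨e.toMonoidHom.comp (toHG (piOf hD X)), fun c => ?_⟩
    show _ ↔ e (toHG (piOf hD X) ⟨0, 0, c, 1⟩) = 1
    rw [map_eq_one_iff _ e.injective]
    constructor
    · intro h
      rw [one_def]
      ext1
      · rfl
      · rfl
      · exact h
      · rfl
    · intro h
      exact congrArg HG.c h
  refine Set.Countable.mono hsub (countable_iUnion fun F => ?_)
  by_cases hne : {X : H → D | ∀ c, piOf (k := k) hD X c = 0 ↔ F ⟨0, 0, c, 1⟩ = 1}.Nonempty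
  · obtain ⟨X0, hX0⟩ := hne
    refine (same_kernel_finite (k := k) hD X0).countable.mono ?_
    intro X hX c
    rw [hX c, hX0 c]
  · rw [not_nonempty_iff_eq_empty] at hne
    rw [hne]
    exact countable_empty

/-! ### Measurability -/

theorem continuous_piOf [TopologicalSpace D] [DiscreteTopology D] [NeZero k]
    (hD : ∀ x : D, k • x = 0) (c : MonoidAlgebra (ZMod k) H) :
    Continuous (fun X : H → D => piOf hD X c) := by
  let T : AddSubgroup (MonoidAlgebra (ZMod k) H) :=
    { carrier := {c | Continuous (fun X : H → D => piOf hD X c)}
      zero_mem' := by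
        show Continuous (fun X : H → D => piOf hD X 0)
        simpa using continuous_const
      add_mem' := by
        intro a b ha hb
        show Continuous (fun X : H → D => piOf hD X (a + b))
        have h1 : Continuous (fun p : D × D => p.1 + p.2) := continuous_of_discreteTopology
        have h2 := h1.comp (Continuous.prodMk ha hb)
        refine h2.congr fun X => ?_
        simp
      neg_mem' := by
        intro a ha
        show Continuous (fun X : H → D => piOf hD X (-a))
        have h1 : Continuous (fun p : D => -p) := continuous_of_discreteTopology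
        have h2 := h1.comp ha
        refine h2.congr fun X => ?_
        simp }
  have hT : T = ⊤ := addSubgroup_eq_top T fun h => by
    show Continuous (fun X : H → D => piOf hD X (U k H h))
    refine (continuous_apply h).congr fun X => ?_
    rw [piOf_U]
  have : c ∈ T := by rw [hT]; trivial
  exact this

theorem measurable_eq [TopologicalSpace D] [DiscreteTopology D] [MeasurableSpace (H → D)]
    [BorelSpace (H → D)] [NeZero k] (hD : ∀ x : D, k • x = 0)
    (y z : HG k H (MonoidAlgebra (ZMod k) H) (AddMonoidHom.id _)) :
    MeasurableSet {X : H → D | toHG (piOf hD X) y = toHG (piOf hD X) z} := by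
  by_cases h : y.a = z.a ∧ y.b = z.b ∧ y.h = z.h
  · have h1 : {X : H → D | toHG (piOf hD X) y = toHG (piOf hD X) z} =
        (fun X : H → D => piOf hD X (y.c - z.c)) ⁻¹' {0} := by
      ext X
      simp only [mem_preimage, mem_singleton_iff, map_sub, sub_eq_zero]
      constructor
      · intro hX
        exact congrArg HG.c hX
      · intro hX
        show toHG (piOf hD X) y = toHG (piOf hD X) z
        ext1
        · exact h.1
        · exact h.2.1
        · exact hX
        · exact h.2.2
    rw [h1]
    exact ((isOpen_discrete _).preimage (continuous_piOf hD _)).measurableSet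
  · have h1 : {X : H → D | toHG (piOf hD X) y = toHG (piOf hD X) z} = ∅ := by
      rw [eq_empty_iff_forall_notMem]
      intro X hX
      have hX' : toHG (piOf hD X) y = toHG (piOf hD X) z := hX
      have ha := congrArg HG.a hX'
      have hb := congrArg HG.b hX'
      have hh := congrArg HG.h hX'
      exact h ⟨ha, hb, hh⟩
    rw [h1]
    exact MeasurableSet.empty

/-- The functions which are onto. -/
def Onto (H D : Type) : Set (H → D) := {X | Function.Surjective X}

theorem piOf_surjective (hD : ∀ x : D, k • x = 0) (X : H → D) (hX : X ∈ Onto H D) :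
    Function.Surjective (piOf (k := k) hD X) := by
  intro c
  obtain ⟨h, rfl⟩ := hX c
  exact ⟨U k H h, piOf_U hD X h⟩

theorem toHG_surjective {π : MonoidAlgebra (ZMod k) H →+ D} (hπ : Function.Surjective π) :
    Function.Surjective (toHG π) := by
  rintro ⟨a, b, c, h⟩
  obtain ⟨c', rfl⟩ := hπ c
  exact ⟨⟨a, b, c', h⟩, rfl⟩

/-- First order formulas with parameters define measurable sets of indices. -/
theorem measurable_formula [TopologicalSpace D] [DiscreteTopology D] [MeasurableSpace (H → D)]
    [BorelSpace (H → D)] [NeZero k] [Countable H] (hD : ∀ x : D, k • x = 0) {α : Type} {m : ℕ}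
    (φ : groupLanguage.BoundedFormula α m) :
    ∀ (v : α → HG k H (MonoidAlgebra (ZMod k) H) (AddMonoidHom.id _))
      (xs : Fin m → HG k H (MonoidAlgebra (ZMod k) H) (AddMonoidHom.id _)),
      ∃ B : Set (H → D), MeasurableSet B ∧ ∀ X ∈ Onto H D,
        (X ∈ B ↔ φ.Realize (fun a => toHG (piOf hD X) (v a))
          (fun i => toHG (piOf hD X) (xs i))) := by
  have hAc : Countable (MonoidAlgebra (ZMod k) H) :=
    Countable.of_equiv _ (MonoidAlgebra.coeffEquiv (R := ZMod k) (M := H)).symm
  induction φ with
  | falsum => exact fun v xs => ⟨∅, MeasurableSet.empty, fun X _ => by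
      simp [FirstOrder.Language.BoundedFormula.Realize]⟩
  | equal t₁ t₂ =>
      intro v xs
      refine ⟨{X : H → D | toHG (piOf hD X) (t₁.realize (Sum.elim v xs)) =
        toHG (piOf hD X) (t₂.realize (Sum.elim v xs))}, measurable_eq hD _ _, fun X _ => ?_⟩
      have h1 : (Sum.elim (fun a => toHG (piOf hD X) (v a)) (fun i => toHG (piOf hD X) (xs i))) =
          fun a => toHG (piOf hD X) (Sum.elim v xs a) := by
        funext a
        cases a <;> rfl
      simp only [FirstOrder.Language.BoundedFormula.Realize, Set.mem_ofPred_eq]
      rw [h1, realize_term_hom, realize_term_hom]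
  | rel R ts => exact nomatch R
  | imp φ₁ φ₂ ih₁ ih₂ =>
      intro v xs
      obtain ⟨B₁, hB₁, h₁⟩ := ih₁ v xs
      obtain ⟨B₂, hB₂, h₂⟩ := ih₂ v xs
      refine ⟨B₁ᶜ ∪ B₂, hB₁.compl.union hB₂, fun X hX => ?_⟩
      simp only [FirstOrder.Language.BoundedFormula.Realize, mem_union, mem_compl_iff]
      rw [h₁ X hX, h₂ X hX]
      tauto
  | all φ ih =>
      intro v xs
      choose B hB h using fun y => ih v (Fin.snoc xs y)
      refine ⟨⋂ y, B y, MeasurableSet.iInter hB, fun X hX => ?_⟩
      simp only [FirstOrder.Language.BoundedFormula.Realize, mem_iInter]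
      constructor
      · intro h1 z
        obtain ⟨y, rfl⟩ := toHG_surjective (piOf_surjective hD X hX) z
        have h2 := (h y X hX).mp (h1 y)
        convert h2 using 1
        funext i
        refine Fin.lastCases ?_ (fun i => ?_) i
        · simp
        · simp
      · intro h1 y
        rw [h y X hX]
        have h2 := h1 (toHG (piOf hD X) y)
        convert h2 using 1
        funext i
        refine Fin.lastCases ?_ (fun i => ?_) i
        · simp
        · simp

end HG

end Pool.Agent.H9.Burnside
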