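import Mathlib

/-!
Powers of a simple nonabelian group: subgroups containing the diagonal and an element with
pairwise distinct coordinates, and surjections between powers.
-/

namespace Pool.Agent.H9.Burnside

open scoped commutatorElement

universe u

variable {S : Type u} [Group S]

/-- In a nonabelian simple group the only element commuting with everything is `1`. -/
theorem exists_commutator_ne_one [IsSimpleGroup S] (hna : ∃ a b : S, a * b ≠ b * a)
    {a : S} (ha : a ≠ 1) : ∃ s : S, ⁅a, s⁆ ≠ 1 := by
  by_contra hcon
  push Not at hcon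
  have hmem : a ∈ Subgroup.center S := by
    rw [Subgroup.mem_center_iff]
    intro g
    have := hcon g
    rw [commutatorElement_eq_one_iff_mul_comm] at this
    exact this.symm
  rcases (inferInstance : (Subgroup.center S).Normal).eq_bot_or_eq_top with h | h
  · rw [h] at hmem
    exact ha (Subgroup.mem_bot.mp hmem)
  · obtain ⟨x, y, hxy⟩ := hna
    have hx : x ∈ Subgroup.center S := by rw [h]; trivial
    exact hxy ((Subgroup.mem_center_iff.mp hx) y).symm

/-- The set of `i`-th coordinates of the elements of `H` which are trivial on `J`. -/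
def slice {ι : Type*} (H : Subgroup (ι → S)) (J : Finset ι) (i : ι) : Subgroup S where
  carrier := {s | ∃ h ∈ H, h i = s ∧ ∀ j ∈ J, h j = 1}
  one_mem' := ⟨1, H.one_mem, rfl, fun _ _ => rfl⟩
  mul_mem' := by
    rintro a b ⟨h, hh, h1, h2⟩ ⟨g, hg, g1, g2⟩
    refine ⟨h * g, H.mul_mem hh hg, ?_, ?_⟩
    · simp [h1, g1]
    · intro j hj
      simp [h2 j hj, g2 j hj]
  inv_mem' := by
    rintro a ⟨h, hh, h1, h2⟩
    refine ⟨h⁻¹, H.inv_mem hh, ?_, ?_⟩
    · simp [h1]
    · intro j hj
      simp [h2 j hj]

theorem slice_normal {ι : Type*} (H : Subgroup (ι → S)) (hd : ∀ s : S, (fun _ => s) ∈ H)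
    (J : Finset ι) (i : ι) : (slice H J i).Normal := by
  refine ⟨?_⟩
  rintro a ⟨h, hh, h1, h2⟩ g
  refine ⟨(fun _ => g) * h * (fun _ => g)⁻¹, H.mul_mem (H.mul_mem (hd g) hh) (H.inv_mem (hd g)),
    ?_, ?_⟩
  · simp [h1]
  · intro j hj
    simp [h2 j hj]

theorem slice_eq_top {ι : Type*} [DecidableEq ι] [IsSimpleGroup S]
    (hna : ∃ a b : S, a * b ≠ b * a)
    (H : Subgroup (ι → S)) (hd : ∀ s : S, (fun _ => s) ∈ H)
    (x : ι → S) (hx : x ∈ H) (hinj : Function.Injective x)
    (i : ι) (J : Finset ι) (hi : i ∉ J) : slice H J i = ⊤ := by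
  induction J using Finset.induction_on with
  | empty =>
      rw [eq_top_iff]
      intro s _
      exact ⟨fun _ => s, hd s, rfl, by simp⟩
  | insert j J hj ih =>
      have hiJ : i ∉ J := fun h => hi (Finset.mem_insert_of_mem h)
      have hij : i ≠ j := fun h => hi (h ▸ Finset.mem_insert_self _ _)
      have h1 : slice H J i = ⊤ := ih hiJ
      have h2 : slice H {j} i = ⊤ := by
        rcases (slice_normal H hd {j} i).eq_bot_or_eq_top with h | h
        · exfalso
          have hmem : x i * (x j)⁻¹ ∈ slice H {j} i := by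
            refine ⟨x * (fun _ => x j)⁻¹, H.mul_mem hx (H.inv_mem (hd _)), ?_, ?_⟩
            · simp
            · intro l hl
              rw [Finset.mem_singleton] at hl
              subst hl
              simp
          rw [h, Subgroup.mem_bot, mul_inv_eq_one] at hmem
          exact hij (hinj hmem)
        · exact h
      rcases (slice_normal H hd (insert j J) i).eq_bot_or_eq_top with h | h
      · exfalso
        obtain ⟨a, b, hab⟩ := hna
        have ha : a ∈ slice H J i := by rw [h1]; trivial
        have hb : b ∈ slice H {j} i := by rw [h2]; trivial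
        obtain ⟨f, hf, f1, f2⟩ := ha
        obtain ⟨g, hg, g1, g2⟩ := hb
        have hc : ⁅a, b⁆ ∈ slice H (insert j J) i := by
          refine ⟨⁅f, g⁆, ?_, ?_, ?_⟩
          · rw [commutatorElement_def]
            exact H.mul_mem (H.mul_mem (H.mul_mem hf hg) (H.inv_mem hf)) (H.inv_mem hg)
          · simp [commutatorElement_def, f1, g1]
          · intro l hl
            rw [Finset.mem_insert] at hl
            rcases hl with rfl | hl
            · simp [commutatorElement_def, g2 l (Finset.mem_singleton_self l)]
            · simp [commutatorElement_def, f2 l hl]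
        rw [h, Subgroup.mem_bot, commutatorElement_eq_one_iff_mul_comm] at hc
        exact hab hc
      · exact h

/-- A subgroup of a finite power of a nonabelian simple group which contains the diagonal and an
element with pairwise distinct coordinates is everything. -/
theorem eq_top_of_diagonal {ι : Type*} [Finite ι] [IsSimpleGroup S]
    (hna : ∃ a b : S, a * b ≠ b * a)
    (H : Subgroup (ι → S)) (hd : ∀ s : S, (fun _ => s) ∈ H)
    (x : ι → S) (hx : x ∈ H) (hinj : Function.Injective x) : H = ⊤ := by
  classical
  haveI := Fintype.ofFinite ι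
  rw [eq_top_iff]
  intro y _
  refine Subgroup.pi_mem_of_mulSingle_mem y fun i => ?_
  have h := slice_eq_top hna H hd x hx hinj i (Finset.univ.erase i) (Finset.notMem_erase i _)
  have hy : y i ∈ slice H (Finset.univ.erase i) i := by rw [h]; trivial
  obtain ⟨f, hf, f1, f2⟩ := hy
  have : f = Pi.mulSingle i (y i) := by
    funext j
    by_cases hj : j = i
    · subst hj; simp [f1]
    · rw [Pi.mulSingle_eq_of_ne hj]
      exact f2 j (Finset.mem_erase.mpr ⟨hj, Finset.mem_univ j⟩)
  rw [← this]
  exact hf

/-- If a finite power `S^κ` of a nonabelian simple group is a quotient of `S^ι`,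
then `κ` has at most as many elements as `ι`. -/
theorem card_le_of_surjective {ι κ : Type} [Fintype ι] [Fintype κ] [IsSimpleGroup S]
    (hna : ∃ a b : S, a * b ≠ b * a) (φ : (ι → S) →* (κ → S)) (hφ : Function.Surjective φ) :
    Fintype.card κ ≤ Fintype.card ι := by
  classical
  -- the component maps
  let f : κ → ι → S →* S := fun c i =>
    ((Pi.evalMonoidHom (fun _ : κ => S) c).comp φ).comp (MonoidHom.mulSingle (fun _ : ι => S) i)
  have hfdef : ∀ c i s, f c i s = φ (Pi.mulSingle i s) c := fun c i s => rfl
  -- the image of a factor is normal, hence a nontrivial component is injective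
  have hker : ∀ c i, (∃ s, f c i s ≠ 1) → Function.Injective (f c i) := by
    intro c i ⟨s, hs⟩
    rw [← MonoidHom.ker_eq_bot_iff]
    rcases (inferInstance : (f c i).ker.Normal).eq_bot_or_eq_top with h | h
    · exact h
    · exfalso
      apply hs
      have : s ∈ (f c i).ker := by rw [h]; trivial
      exact this
  -- every coordinate is hit by some factor
  have hex : ∀ c : κ, ∃ i : ι, ∃ s, f c i s ≠ 1 := by
    intro c
    by_contra hcon
    push Not at hcon
    obtain ⟨a, b, hab⟩ := hna
    have hK : ((Pi.evalMonoidHom (fun _ : κ => S) c).comp φ).ker = ⊤ := by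
      rw [eq_top_iff]
      intro y _
      refine Subgroup.pi_mem_of_mulSingle_mem y fun i => ?_
      exact hcon i (y i)
    obtain ⟨y, hy⟩ := hφ (fun _ => a)
    obtain ⟨z, hz⟩ := hφ (fun _ => b)
    have h1 : a = 1 := by
      have : y ∈ ((Pi.evalMonoidHom (fun _ : κ => S) c).comp φ).ker := by rw [hK]; trivial
      have h2 : φ y c = 1 := this
      rw [hy] at h2
      exact h2
    apply hab
    rw [h1]; simp
  choose g hg using hex
  refine Fintype.card_le_of_injective g ?_
  intro c c' hcc
  by_contra hne
  obtain ⟨s, hs⟩ := hg c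
  -- a element of the factor which is nontrivial at `c` and trivial at `c'`
  obtain ⟨t, ht⟩ := exists_commutator_ne_one hna hs
  obtain ⟨y, hy⟩ := hφ (Pi.mulSingle c t)
  have h1 : ⁅(Pi.mulSingle (g c) s : ι → S), y⁆ = Pi.mulSingle (g c) ⁅s, y (g c)⁆ := by
    funext j
    by_cases hj : j = g c
    · subst hj; simp [commutatorElement_def]
    · rw [Pi.mulSingle_eq_of_ne hj]
      simp [commutatorElement_def, Pi.mulSingle_eq_of_ne hj]
  have h2 : f c (g c) ⁅s, y (g c)⁆ ≠ 1 := by
    rw [hfdef, ← h1, map_commutatorElement, hy]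
    have : (⁅φ (Pi.mulSingle (g c) s), Pi.mulSingle c t⁆ : κ → S) c
        = ⁅f c (g c) s, t⁆ := by
      simp [commutatorElement_def, hfdef]
    rw [this]
    exact ht
  have h3 : f c' (g c) ⁅s, y (g c)⁆ = 1 := by
    rw [hfdef, ← h1, map_commutatorElement, hy]
    have hc' : c' ≠ c := fun h => hne h.symm
    simp [commutatorElement_def, Pi.mulSingle_eq_of_ne hc']
  have h4 : Function.Injective (f c' (g c)) := by
    rw [hcc]
    exact hker c' (g c') (hg c')
  have h5 : ⁅s, y (g c)⁆ = 1 := h4 (by rw [h3, map_one])
  apply h2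
  rw [h5, map_one]

end Pool.Agent.H9.Burnside
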